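import Mathlib

/-!
# Project RS, pure counting part: finite sums over histories

A history is a list of vertices, most recent one first.  `Lk V k` is the finset of histories of
length `k`.  `Rents V x0 m` collects what the game part provides about the value of one free cop,
and the theorem `Rents.pair_count` (file `Cnt7`) says that the value is more than `1/16` as soon as
`16 * card V ≤ m ^ 2`.
-/

namespace Pool.Agent.H76.RS

open Finset

variable {V : Type*} [Fintype V] [DecidableEq V]

/-- the histories of length `k` -/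
def Lk (V : Type*) [Fintype V] [DecidableEq V] : ℕ → Finset (List V)
  | 0 => {[]}
  | k + 1 => (Finset.univ ×ˢ Lk V k).image fun p : V × List V => p.1 :: p.2

theorem mem_Lk {k : ℕ} {h : List V} : h ∈ Lk V k ↔ h.length = k := by
  induction k generalizing h with
  | zero => simp [Lk]
  | succ k ih =>
    simp only [Lk, mem_image, mem_product, mem_univ, true_and, Prod.exists, ih]
    constructor
    · rintro ⟨z, g, hg, rfl⟩
      simp [hg]
    · intro hh
      cases h with
      | nil => simp at hh
      | cons z g => exact ⟨z, g, by simpa using hh, rfl⟩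

theorem sum_Lk_zero (f : List V → ℝ) : ∑ h ∈ Lk V 0, f h = f [] := by
  simp [Lk]

theorem sum_Lk_succ (f : List V → ℝ) (k : ℕ) :
    ∑ h ∈ Lk V (k + 1), f h = ∑ h ∈ Lk V k, ∑ z, f (z :: h) := by
  rw [Lk, Finset.sum_image]
  · rw [Finset.sum_product, Finset.sum_comm]
  · rintro ⟨a, b⟩ - ⟨c, d⟩ - h
    simp only [List.cons.injEq] at h
    exact Prod.ext h.1 h.2

/-- last end point of a history (`x0` for the empty one) -/
def pos (x0 : V) : List V → V
  | [] => x0
  | z :: _ => z

/-- what the game part provides: `M` mass, `om` value of the free cop, `φ` rent of a cop at `y` -/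
structure Rents (V : Type*) [Fintype V] [DecidableEq V] (x0 : V) (m : ℕ) where
  M : List V → ℝ
  om : List V → ℝ
  φ : List V → V → ℝ
  M_nonneg : ∀ h, 0 ≤ M h
  M_nil : M [] = 1
  M_sum : ∀ h, ∑ z, M (z :: h) = M h
  om_nonneg : ∀ h, 0 ≤ om h
  om_le : ∀ h, om h ≤ M h
  c_nonneg : ∀ h, ∑ z, om (z :: h) ≤ om h
  φ_nonneg : ∀ h y, 0 ≤ φ h y
  φ_le : ∀ h y, φ h y ≤ M h
  rel : ∀ h w, ∑ z, φ (z :: h) w ≤ om h - ∑ z, om (z :: h)
  key : ∀ h h', h.length < m → h'.length < m →
    ∑ z, ∑ z', (if z = z' then (M (z :: h) - om (z :: h)) * (M (z :: h') - om (z :: h'))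
      else φ (z :: h) z' * φ (z' :: h') z) ≤
    (φ h (pos x0 h') + (om h - ∑ z, om (z :: h))) * (φ h' (pos x0 h) + (om h' - ∑ z, om (z :: h')))

/-- cooldown of a pair of histories: `2` just after a coincidence, then `1`, then `0`. -/
def cd : List V → List V → ℕ
  | z :: h, z' :: h' => if cd h h' = 0 then (if z = z' then 2 else 0) else cd h h' - 1
  | [], _ => 0
  | _ :: _, [] => 0

theorem cd_le (h h' : List V) : cd h h' ≤ 2 := by
  induction h generalizing h' with
  | nil => simp [cd]
  | cons z h ih =>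
    cases h' with
    | nil => simp [cd]
    | cons z' h' =>
      have := ih h'
      simp only [cd]
      split_ifs <;> omega

namespace Rents

variable {x0 : V} {m : ℕ} (R : Rents V x0 m)

/-- the cost of one more slot -/
def c (h : List V) : ℝ := R.om h - ∑ z, R.om (z :: h)

/-- indicator function of the good histories: `om ≤ M / 4` for it and for all its prefixes -/
noncomputable def gd : List V → ℝ
  | [] => if R.om [] ≤ R.M [] / 4 then 1 else 0
  | z :: h => gd h * if R.om (z :: h) ≤ R.M (z :: h) / 4 then 1 else 0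

/-- potential of the living pairs -/
noncomputable def Z (k k' : ℕ) : ℝ := ∑ h ∈ Lk V k, ∑ h' ∈ Lk V k',
  if cd h h' = 0 then R.gd h * R.gd h' * (R.φ h (pos x0 h') * R.φ h' (pos x0 h)) else 0

/-- pairs of good histories that have just coincided -/
noncomputable def N (k k' : ℕ) : ℝ := ∑ h ∈ Lk V k, ∑ h' ∈ Lk V k',
  if cd h h' = 2 then R.gd h * R.gd h' * (R.M h * R.M h') else 0

/-- all coincidences of good histories -/
noncomputable def Q (k k' : ℕ) : ℝ := ∑ h ∈ Lk V k, ∑ h' ∈ Lk V k',
  if pos x0 h = pos x0 h' then R.gd h * R.gd h' * (R.M h * R.M h') else 0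

/-- rent paid -/
noncomputable def Rt (k k' : ℕ) : ℝ := ∑ h ∈ Lk V k, ∑ h' ∈ Lk V k',
  (R.c h * R.φ h' (pos x0 h) + R.c h' * R.φ h (pos x0 h') + R.c h * R.c h')

/-- pairs that come back to life -/
noncomputable def Ins (k k' : ℕ) : ℝ := ∑ h ∈ Lk V k, ∑ h' ∈ Lk V k',
  if cd h h' = 1 then R.gd h * R.gd h' * ∑ z, ∑ z', R.φ (z :: h) z' * R.φ (z' :: h') z else 0

/-- expected number of visits to `z` by good histories, slots `1, ..., m` -/
noncomputable def pi (z : V) : ℝ := ∑ l ∈ range m, ∑ h ∈ Lk V l, R.gd (z :: h) * R.M (z :: h)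

theorem c_nonneg' (h : List V) : 0 ≤ R.c h := sub_nonneg.mpr (R.c_nonneg h)

theorem gd_zero_or_one (h : List V) : R.gd h = 0 ∨ R.gd h = 1 := by
  induction h with
  | nil => unfold gd; split_ifs <;> simp
  | cons z h ih =>
    rw [gd]
    rcases ih with h1 | h1 <;> rw [h1] <;> split_ifs <;> simp

theorem gd_nonneg (h : List V) : 0 ≤ R.gd h := by
  rcases R.gd_zero_or_one h with h1 | h1 <;> rw [h1] <;> norm_num

theorem gd_le_one (h : List V) : R.gd h ≤ 1 := by
  rcases R.gd_zero_or_one h with h1 | h1 <;> rw [h1] <;> norm_num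

theorem gd_cons_le (z : V) (h : List V) : R.gd (z :: h) ≤ R.gd h := by
  rw [gd]
  have := R.gd_nonneg h
  split_ifs <;> linarith

theorem gd_mul_om (h : List V) : R.gd h * R.om h ≤ R.gd h * (R.M h / 4) := by
  cases h with
  | nil =>
    rw [gd]
    split_ifs with h1 <;> linarith
  | cons z h =>
    rw [gd]
    have := R.gd_nonneg h
    split_ifs with h1
    · exact mul_le_mul_of_nonneg_left h1 (by linarith)
    · simp

end Rents

end Pool.Agent.H76.RS
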