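import Mathlib
import Pool.Agent.H76.RS.Cnt1

/-!
# RS-01: first sums (all proofs are short inductions with `sum_Lk_succ`)
-/

namespace Pool.Agent.H76.RS

open Finset

namespace Rents

variable {V : Type*} [Fintype V] [DecidableEq V] {x0 : V} {m : ℕ} (R : Rents V x0 m)

private theorem sum_c_eq (k : ℕ) :
    ∑ h ∈ Lk V k, R.c h = ∑ h ∈ Lk V k, R.om h - ∑ h ∈ Lk V (k + 1), R.om h := by
  rw [sum_Lk_succ, ← Finset.sum_sub_distrib]
  rfl

/-- telescoping: the left side is `om [] - ∑ h ∈ Lk V K, om h` (induction on `K`, `sum_Lk_succ`) -/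
theorem sum_c_le (K : ℕ) : ∑ k ∈ range K, ∑ h ∈ Lk V k, R.c h ≤ R.om [] := by
  have key : ∀ K : ℕ, ∑ k ∈ range K, ∑ h ∈ Lk V k, R.c h =
      R.om [] - ∑ h ∈ Lk V K, R.om h := by
    intro K
    induction K with
    | zero => simp [sum_Lk_zero]
    | succ K ih =>
      rw [Finset.sum_range_succ, ih, R.sum_c_eq]
      ring
  rw [key]
  have : 0 ≤ ∑ h ∈ Lk V K, R.om h := Finset.sum_nonneg fun h _ => R.om_nonneg h
  linarith

theorem sum_M (k : ℕ) : ∑ h ∈ Lk V k, R.M h = 1 := by
  induction k with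
  | zero => rw [sum_Lk_zero, R.M_nil]
  | succ k ih =>
    rw [sum_Lk_succ, ← ih]
    exact Finset.sum_congr rfl fun h _ => R.M_sum h

theorem sum_gd_M_le (k : ℕ) : ∑ h ∈ Lk V k, R.gd h * R.M h ≤ 1 := by
  rw [← R.sum_M k]
  refine Finset.sum_le_sum fun h _ => ?_
  have h1 := R.gd_le_one h
  have h2 := R.M_nonneg h
  nlinarith

/-- `(R)`: use `sum_Lk_succ` and `R.rel` -/
theorem sum_phi_succ_le (k : ℕ) (w : V) :
    ∑ h ∈ Lk V (k + 1), R.φ h w ≤ ∑ h ∈ Lk V k, R.c h := by
  rw [sum_Lk_succ]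
  exact Finset.sum_le_sum fun h _ => R.rel h w

/-- The mass of the histories that are not good is at most `4 * om []`.
Proof: by induction on `k` show `Ψ k := ∑ h ∈ Lk V k, (gd h * (4 * om h) + (1 - gd h) * M h) ≤ 4 * om []`.
`k = 0`: `gd [] = 1` because `om [] ≤ 1/4 = M [] / 4`.  Step: for every `h`,
`∑ z, (gd (z::h) * (4 * om (z::h)) + (1 - gd (z::h)) * M (z::h)) ≤ gd h * (4 * om h) + (1 - gd h) * M h`:
if `gd h = 0` then all `gd (z::h) = 0` and this is `M_sum`;  if `gd h = 1` then for every `z` the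
summand is `≤ 4 * om (z::h)` (if `gd (z::h) = 0` then `M (z::h) < 4 * om (z::h)`), use `c_nonneg`.
Finally `∑ gd h * M h = 1 - ∑ (1 - gd h) * M h ≥ 1 - Ψ k`. -/
theorem sum_gd_M_ge (hp : R.om [] ≤ 1 / 4) (k : ℕ) :
    1 - 4 * R.om [] ≤ ∑ h ∈ Lk V k, R.gd h * R.M h := by
  have hstep : ∀ h : List V,
      ∑ z, (R.gd (z :: h) * (4 * R.om (z :: h)) + (1 - R.gd (z :: h)) * R.M (z :: h)) ≤
        R.gd h * (4 * R.om h) + (1 - R.gd h) * R.M h := by
    intro h
    rcases R.gd_zero_or_one h with h0 | h1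
    · have hz : ∀ z, R.gd (z :: h) = 0 := by
        intro z
        have a := R.gd_cons_le z h
        have b := R.gd_nonneg (z :: h)
        linarith
      rw [h0]
      simp only [hz, zero_mul, zero_add, sub_zero, one_mul]
      exact (R.M_sum h).le
    · rw [h1]
      have hz : ∀ z, R.gd (z :: h) * (4 * R.om (z :: h)) + (1 - R.gd (z :: h)) * R.M (z :: h) ≤
          4 * R.om (z :: h) := by
        intro z
        rw [gd, h1]
        split_ifs with h2
        · simp
        · push Not at h2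
          simp only [mul_zero, zero_mul, zero_add, sub_zero, one_mul]
          linarith
      calc ∑ z, (R.gd (z :: h) * (4 * R.om (z :: h)) + (1 - R.gd (z :: h)) * R.M (z :: h))
          ≤ ∑ z, 4 * R.om (z :: h) := Finset.sum_le_sum fun z _ => hz z
        _ = 4 * ∑ z, R.om (z :: h) := by rw [Finset.mul_sum]
        _ ≤ 1 * (4 * R.om h) + (1 - 1) * R.M h := by
            have := R.c_nonneg h
            linarith
  have hΨ : ∀ k : ℕ, ∑ h ∈ Lk V k, (R.gd h * (4 * R.om h) + (1 - R.gd h) * R.M h) ≤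
      4 * R.om [] := by
    intro k
    induction k with
    | zero =>
      rw [sum_Lk_zero]
      have : R.gd [] = 1 := by
        rw [gd, if_pos]
        rw [R.M_nil]
        exact hp
      rw [this]
      linarith
    | succ k ih =>
      rw [sum_Lk_succ]
      exact (Finset.sum_le_sum fun h _ => hstep h).trans ih
  have h1 := hΨ k
  have h2 : ∑ h ∈ Lk V k, (1 - R.gd h) * R.M h ≤
      ∑ h ∈ Lk V k, (R.gd h * (4 * R.om h) + (1 - R.gd h) * R.M h) := by
    refine Finset.sum_le_sum fun h _ => ?_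
    have a := R.gd_nonneg h
    have b := R.om_nonneg h
    have : 0 ≤ R.gd h * (4 * R.om h) := by positivity
    linarith
  have h3 : ∑ h ∈ Lk V k, (1 - R.gd h) * R.M h =
      ∑ h ∈ Lk V k, R.M h - ∑ h ∈ Lk V k, R.gd h * R.M h := by
    rw [← Finset.sum_sub_distrib]
    refine Finset.sum_congr rfl fun h _ => ?_
    ring
  have h4 := R.sum_M k
  linarith

end Rents

end Pool.Agent.H76.RS
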