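import Mathlib
import Pool.Agent.H76.RS.Cnt1

/-!
# RS-02: the step inequality

Please replace the `sorry`; keep the statement.  Proof.  Expand `N (k+1) (k'+1)` and `Z (k+1) (k'+1)` with
`sum_Lk_succ` (twice; swap the sums so that all four terms are sums over `h ∈ Lk V k`, `h' ∈ Lk V k'`).
It is enough to prove for every `h` of length `k` and `h'` of length `k'` (both `< m`)

`∑ z, ∑ z', (9/16 * (if cd (z::h) (z'::h') = 2 then gd (z::h) * gd (z'::h') * (M (z::h) * M (z'::h')) else 0)
  + (if cd (z::h) (z'::h') = 0 then gd (z::h) * gd (z'::h') * (φ (z::h) z' * φ (z'::h') z) else 0))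
 ≤ (if cd h h' = 0 then gd h * gd h' * (φ h (pos h') * φ h' (pos h)) else 0)
   + (c h * φ h' (pos h) + c h' * φ h (pos h') + c h * c h')
   + (if cd h h' = 1 then gd h * gd h' * ∑ z, ∑ z', φ (z::h) z' * φ (z'::h') z else 0)`.

(`pos x0 (z :: h) = z` by `rfl`.)  Cases:
* `cd h h' = 2`: all children have `cd = 1`, the left side is `0`, the right side is `≥ 0`.
* `cd h h' = 1`: all children have `cd = 0`; `gd (z::h) * gd (z'::h') ≤ gd h * gd h'` (`gd_cons_le`), the third term of the
  right side is enough.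
* `cd h h' = 0`: children with `z = z'` have `cd = 2`, children with `z ≠ z'` have `cd = 0`.  If `gd h = 0` or `gd h' = 0` the
  left side is `0`.  Otherwise `gd h = gd h' = 1`; by `R.key` it is enough that every summand of the left side is at most the
  corresponding summand of `R.key`: for `z = z'` use
  `gd (z::h) * M (z::h) * (3/4) ≤ M (z::h) - om (z::h)` (from `gd_mul_om`, `gd_zero_or_one`, `om_le`, `M_nonneg`) and the same
  for `h'`; for `z ≠ z'` use `gd ≤ 1`, `φ ≥ 0`.  And
  `(φ h (pos h') + c h) * (φ h' (pos h) + c h')` is the right side.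
(`Z`, `N`, `Rt`, `Ins`, `c`, `gd` are definitions in `Cnt1`; `cd_le` may help.)
-/

namespace Pool.Agent.H76.RS

open Finset

namespace Rents

variable {V : Type*} [Fintype V] [DecidableEq V] {x0 : V} {m : ℕ} (R : Rents V x0 m)

private theorem Cnt3_gd_zero {h : List V} (hg : R.gd h = 0) (z : V) : R.gd (z :: h) = 0 :=
  le_antisymm ((R.gd_cons_le z h).trans hg.le) (R.gd_nonneg _)

private theorem Cnt3_three (h : List V) : 3 / 4 * (R.gd h * R.M h) ≤ R.M h - R.om h := by
  have h1 := R.om_le h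
  have h2 := R.gd_mul_om h
  have h3 := R.M_nonneg h
  rcases R.gd_zero_or_one h with h4 | h4
  · rw [h4]; linarith
  · rw [h4] at h2 ⊢; linarith

private theorem Cnt3_pt {h h' : List V} (hh : h.length < m) (hh' : h'.length < m) :
    ∑ z, ∑ z', (9 / 16 * (if cd (z :: h) (z' :: h') = 2 then
        R.gd (z :: h) * R.gd (z' :: h') * (R.M (z :: h) * R.M (z' :: h')) else 0) +
      (if cd (z :: h) (z' :: h') = 0 then R.gd (z :: h) * R.gd (z' :: h') *
        (R.φ (z :: h) z' * R.φ (z' :: h') z) else 0)) ≤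
    (if cd h h' = 0 then R.gd h * R.gd h' * (R.φ h (pos x0 h') * R.φ h' (pos x0 h)) else 0) +
    (R.c h * R.φ h' (pos x0 h) + R.c h' * R.φ h (pos x0 h') + R.c h * R.c h') +
    (if cd h h' = 1 then R.gd h * R.gd h' * ∑ z, ∑ z', R.φ (z :: h) z' * R.φ (z' :: h') z
      else 0) := by
  have hc := R.c_nonneg' h
  have hc' := R.c_nonneg' h'
  have hφ := R.φ_nonneg h (pos x0 h')
  have hφ' := R.φ_nonneg h' (pos x0 h)
  have hg := R.gd_nonneg h
  have hg' := R.gd_nonneg h'
  have r1 : 0 ≤ R.gd h * R.gd h' * (R.φ h (pos x0 h') * R.φ h' (pos x0 h)) := by positivity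
  have r2 : 0 ≤ R.c h * R.φ h' (pos x0 h) + R.c h' * R.φ h (pos x0 h') + R.c h * R.c h' := by
    positivity
  have r3 : 0 ≤ R.gd h * R.gd h' * ∑ z, ∑ z', R.φ (z :: h) z' * R.φ (z' :: h') z :=
    mul_nonneg (mul_nonneg hg hg') (sum_nonneg fun z _ => sum_nonneg fun z' _ =>
      mul_nonneg (R.φ_nonneg _ _) (R.φ_nonneg _ _))
  have hcd : ∀ z z' : V, cd (z :: h) (z' :: h') =
      if cd h h' = 0 then (if z = z' then 2 else 0) else cd h h' - 1 := fun z z' => by
    simp only [cd]
  have hle := cd_le h h'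
  rcases Nat.lt_or_ge (cd h h') 1 with h0 | h0
  · have h0' : cd h h' = 0 := by omega
    simp only [hcd, h0', if_true]
    rw [if_neg (by norm_num : ¬ (0 : ℕ) = 1)]
    rcases R.gd_zero_or_one h with g1 | g1
    · have : ∀ z : V, R.gd (z :: h) = 0 := Cnt3_gd_zero R g1
      simp only [this, g1, zero_mul, ite_self, mul_zero, add_zero, sum_const_zero, zero_add]
      exact r2
    rcases R.gd_zero_or_one h' with g2 | g2
    · have : ∀ z : V, R.gd (z :: h') = 0 := Cnt3_gd_zero R g2
      simp only [this, g2, zero_mul, ite_self, mul_zero, add_zero, sum_const_zero, zero_add]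
      exact r2
    rw [g1, g2]
    have hk := R.key h h' hh hh'
    have hk2 : (R.φ h (pos x0 h') + (R.om h - ∑ z, R.om (z :: h))) *
        (R.φ h' (pos x0 h) + (R.om h' - ∑ z, R.om (z :: h'))) =
        1 * 1 * (R.φ h (pos x0 h') * R.φ h' (pos x0 h)) +
        (R.c h * R.φ h' (pos x0 h) + R.c h' * R.φ h (pos x0 h') + R.c h * R.c h') + 0 := by
      unfold c
      ring
    rw [← hk2]
    refine le_trans ?_ hk
    refine sum_le_sum fun z _ => sum_le_sum fun z' _ => ?_
    by_cases hz : z = z'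
    · subst hz
      simp only [if_true]
      rw [if_neg (by norm_num : ¬ (2 : ℕ) = 0)]
      have a1 := Cnt3_three R (z :: h)
      have a2 := Cnt3_three R (z :: h')
      have b1 : 0 ≤ 3 / 4 * (R.gd (z :: h) * R.M (z :: h)) :=
        mul_nonneg (by norm_num) (mul_nonneg (R.gd_nonneg _) (R.M_nonneg _))
      have b2 : 0 ≤ 3 / 4 * (R.gd (z :: h') * R.M (z :: h')) :=
        mul_nonneg (by norm_num) (mul_nonneg (R.gd_nonneg _) (R.M_nonneg _))
      have := mul_le_mul a1 a2 b2 (b1.trans a1)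
      calc 9 / 16 * (R.gd (z :: h) * R.gd (z :: h') * (R.M (z :: h) * R.M (z :: h'))) + 0
          = 3 / 4 * (R.gd (z :: h) * R.M (z :: h)) * (3 / 4 * (R.gd (z :: h') * R.M (z :: h'))) := by
            ring
        _ ≤ _ := this
    · rw [if_neg hz]
      rw [if_neg (by norm_num : ¬ (0 : ℕ) = 2), if_pos rfl, if_neg hz]
      have a1 : 0 ≤ R.φ (z :: h) z' * R.φ (z' :: h') z :=
        mul_nonneg (R.φ_nonneg _ _) (R.φ_nonneg _ _)
      have a2 : R.gd (z :: h) * R.gd (z' :: h') ≤ 1 := by
        have e1 := R.gd_le_one (z :: h)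
        have e2 := R.gd_le_one (z' :: h')
        have e3 := R.gd_nonneg (z :: h)
        have e4 := R.gd_nonneg (z' :: h')
        exact mul_le_one₀ e1 e4 e2
      have := mul_le_mul_of_nonneg_right a2 a1
      linarith
  · rcases Nat.lt_or_ge (cd h h') 2 with h1 | h1
    · have h1' : cd h h' = 1 := by omega
      simp only [hcd, h1']
      simp only [one_ne_zero, if_false, Nat.sub_self, if_true, (by norm_num : ¬ (0 : ℕ) = 2)]
      have : ∑ z, ∑ z', (9 / 16 * (0 : ℝ) + R.gd (z :: h) * R.gd (z' :: h') *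
          (R.φ (z :: h) z' * R.φ (z' :: h') z)) ≤
          R.gd h * R.gd h' * ∑ z, ∑ z', R.φ (z :: h) z' * R.φ (z' :: h') z := by
        rw [mul_sum]
        refine sum_le_sum fun z _ => ?_
        rw [mul_sum]
        refine sum_le_sum fun z' _ => ?_
        have a1 : 0 ≤ R.φ (z :: h) z' * R.φ (z' :: h') z :=
          mul_nonneg (R.φ_nonneg _ _) (R.φ_nonneg _ _)
        have a2 : R.gd (z :: h) * R.gd (z' :: h') ≤ R.gd h * R.gd h' :=
          mul_le_mul (R.gd_cons_le z h) (R.gd_cons_le z' h') (R.gd_nonneg _) hg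
        have := mul_le_mul_of_nonneg_right a2 a1
        linarith
      linarith
    · have h2' : cd h h' = 2 := by omega
      simp only [hcd, h2']
      norm_num
      exact r2

theorem step (k k' : ℕ) (hk : k < m) (hk' : k' < m) :
    9 / 16 * R.N (k + 1) (k' + 1) + R.Z (k + 1) (k' + 1) ≤ R.Z k k' + R.Rt k k' + R.Ins k k' := by
  have key : ∀ F : List V → List V → ℝ, ∑ h ∈ Lk V (k + 1), ∑ h' ∈ Lk V (k' + 1), F h h' =
      ∑ h ∈ Lk V k, ∑ h' ∈ Lk V k', ∑ z, ∑ z', F (z :: h) (z' :: h') := by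
    intro F
    rw [sum_Lk_succ]
    refine sum_congr rfl fun h _ => ?_
    rw [sum_comm]
    simp only [sum_Lk_succ]
    rw [sum_comm]
    rw [sum_comm]
    refine sum_congr rfl fun h' _ => ?_
    rw [sum_comm]
  unfold N Z Rt Ins
  rw [key, key, mul_sum, ← sum_add_distrib, ← sum_add_distrib, ← sum_add_distrib]
  refine sum_le_sum fun h hh => ?_
  rw [mul_sum, ← sum_add_distrib, ← sum_add_distrib, ← sum_add_distrib]
  refine sum_le_sum fun h' hh' => ?_
  have l1 : h.length < m := by rw [mem_Lk.1 hh]; exact hk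
  have l2 : h'.length < m := by rw [mem_Lk.1 hh']; exact hk'
  refine le_trans (le_of_eq ?_) (Cnt3_pt R l1 l2)
  rw [mul_sum, ← sum_add_distrib]
  refine sum_congr rfl fun z _ => ?_
  rw [mul_sum, ← sum_add_distrib]
  rfl

end Rents

end Pool.Agent.H76.RS
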