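import Mathlib
import Pool.Agent.H76.RS.Cnt1
import Pool.Agent.H76.RS.Cnt2

/-!
# RS-03: rents and boundary

Please replace the `sorry`s; keep the statements.  `Cnt2` is another job; you can use its statements
(`sum_c_le`, `sum_phi_succ_le`) although they still contain `sorry`.
-/

namespace Pool.Agent.H76.RS

open Finset

namespace Rents

variable {V : Type*} [Fintype V] [DecidableEq V] {x0 : V} {m : ℕ} (R : Rents V x0 m)

/-- bound of the rents -/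
private noncomputable def Cnt4_B (R : Rents V x0 m) : ℕ → ℝ
  | 0 => 1
  | l + 1 => ∑ h ∈ Lk V l, R.c h

private theorem Cnt4_C_nonneg (k : ℕ) : 0 ≤ ∑ h ∈ Lk V k, R.c h :=
  Finset.sum_nonneg fun h _ => R.c_nonneg' h

private theorem Cnt4_B_nonneg (k : ℕ) : 0 ≤ Cnt4_B R k := by
  cases k with
  | zero => exact zero_le_one
  | succ l => exact Cnt4_C_nonneg R l

private theorem Cnt4_phi (k : ℕ) (w : V) : ∑ h ∈ Lk V k, R.φ h w ≤ Cnt4_B R k := by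
  cases k with
  | zero =>
    rw [sum_Lk_zero]
    have h1 := R.φ_le [] w
    rw [R.M_nil] at h1
    exact h1
  | succ l => exact R.sum_phi_succ_le l w

private theorem Cnt4_sumB : ∑ k ∈ range m, Cnt4_B R k ≤ 1 + R.om [] := by
  have h1 : ∑ k ∈ range m, Cnt4_B R k ≤ ∑ k ∈ range (m + 1), Cnt4_B R k := by
    rw [Finset.sum_range_succ]
    linarith [Cnt4_B_nonneg R m]
  rw [Finset.sum_range_succ'] at h1
  have h2 : ∑ k ∈ range m, Cnt4_B R (k + 1) = ∑ k ∈ range m, ∑ h ∈ Lk V k, R.c h := rfl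
  have h3 : Cnt4_B R 0 = 1 := rfl
  have h4 := R.sum_c_le m
  rw [h2, h3] at h1
  linarith

private theorem Cnt4_one (k k' : ℕ) :
    ∑ h ∈ Lk V k, ∑ h' ∈ Lk V k', R.c h * R.φ h' (pos x0 h) ≤
      (∑ h ∈ Lk V k, R.c h) * Cnt4_B R k' := by
  rw [Finset.sum_mul]
  apply Finset.sum_le_sum
  intro h _
  rw [← Finset.mul_sum]
  exact mul_le_mul_of_nonneg_left (Cnt4_phi R k' _) (R.c_nonneg' h)

private theorem Cnt4_Rt (k k' : ℕ) : R.Rt k k' ≤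
    (∑ h ∈ Lk V k, R.c h) * Cnt4_B R k' + (∑ h ∈ Lk V k', R.c h) * Cnt4_B R k +
      (∑ h ∈ Lk V k, R.c h) * (∑ h ∈ Lk V k', R.c h) := by
  have h1 := Cnt4_one R k k'
  have h2 := Cnt4_one R k' k
  rw [Finset.sum_comm] at h2
  have h3 : (∑ h ∈ Lk V k, R.c h) * (∑ h ∈ Lk V k', R.c h) =
      ∑ h ∈ Lk V k, ∑ h' ∈ Lk V k', R.c h * R.c h' := Finset.sum_mul_sum _ _ _ _
  have h4 : R.Rt k k' = ∑ h ∈ Lk V k, ∑ h' ∈ Lk V k', R.c h * R.φ h' (pos x0 h) +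
      ∑ h ∈ Lk V k, ∑ h' ∈ Lk V k', R.c h' * R.φ h (pos x0 h') +
      ∑ h ∈ Lk V k, ∑ h' ∈ Lk V k', R.c h * R.c h' := by
    unfold Rt
    simp only [Finset.sum_add_distrib]
  rw [h4, h3]
  linarith

/-- Proof.  `p := om []`, `C k := ∑ h ∈ Lk V k, c h ≥ 0`, `∑ k ∈ range m, C k ≤ p` (`sum_c_le`).
`Rt k k' = A k k' + A' k k' + C k * C k'` with `A k k' = ∑ h, c h * ∑ h' ∈ Lk V k', φ h' (pos h)` and `A'` the same with the roles
exchanged (`sum_comm`).  For `k' = 0`: `∑ h' ∈ Lk V 0, φ h' (pos h) = φ [] (pos h) ≤ M [] = 1`; for `k' = l + 1` it is `≤ C l`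
by `sum_phi_succ_le`.  So `∑ h' ∈ Lk V k', φ h' w ≤ B k'` with `B 0 = 1`, `B (l+1) = C l`, and
`∑ k' ∈ range m, B k' ≤ 1 + p` (compare with `range (m + 1)`, `sum_range_succ'`).  Hence
`∑ k, ∑ k', A k k' ≤ (∑ C k) * (∑ B k') ≤ p * (1 + p)`. -/
theorem sum_Rt_le : ∑ k ∈ range m, ∑ k' ∈ range m, R.Rt k k' ≤
    2 * (R.om [] * (1 + R.om [])) + R.om [] ^ 2 := by
  obtain ⟨C, hC⟩ : ∃ C : ℕ → ℝ, C = fun k => ∑ h ∈ Lk V k, R.c h := ⟨_, rfl⟩
  have hC0 : ∀ k, 0 ≤ C k := fun k => by rw [hC]; exact Cnt4_C_nonneg R k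
  have hCs : ∑ k ∈ range m, C k ≤ R.om [] := by rw [hC]; exact R.sum_c_le m
  have hCn : 0 ≤ ∑ k ∈ range m, C k := Finset.sum_nonneg fun k _ => hC0 k
  have hBs := Cnt4_sumB R
  have hBn : 0 ≤ ∑ k ∈ range m, Cnt4_B R k := Finset.sum_nonneg fun k _ => Cnt4_B_nonneg R k
  have hp := R.om_nonneg []
  have h1 : ∑ k ∈ range m, ∑ k' ∈ range m, R.Rt k k' ≤
      ∑ k ∈ range m, ∑ k' ∈ range m, (C k * Cnt4_B R k' + C k' * Cnt4_B R k + C k * C k') := by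
    apply Finset.sum_le_sum
    intro k _
    apply Finset.sum_le_sum
    intro k' _
    rw [hC]
    exact Cnt4_Rt R k k'
  have h2 : ∑ k ∈ range m, ∑ k' ∈ range m, (C k * Cnt4_B R k' + C k' * Cnt4_B R k + C k * C k') =
      2 * ((∑ k ∈ range m, C k) * ∑ k ∈ range m, Cnt4_B R k) +
        (∑ k ∈ range m, C k) * ∑ k ∈ range m, C k := by
    simp only [Finset.sum_add_distrib]
    have e1 : ∑ k ∈ range m, ∑ k' ∈ range m, C k * Cnt4_B R k' =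
        (∑ k ∈ range m, C k) * ∑ k ∈ range m, Cnt4_B R k := (Finset.sum_mul_sum _ _ _ _).symm
    have e2 : ∑ k ∈ range m, ∑ k' ∈ range m, C k' * Cnt4_B R k =
        (∑ k ∈ range m, C k) * ∑ k ∈ range m, Cnt4_B R k := by
      rw [Finset.sum_comm]
      exact e1
    have e3 : ∑ k ∈ range m, ∑ k' ∈ range m, C k * C k' =
        (∑ k ∈ range m, C k) * ∑ k ∈ range m, C k := (Finset.sum_mul_sum _ _ _ _).symm
    rw [e1, e2, e3]
    ring
  have h3 : (∑ k ∈ range m, C k) * ∑ k ∈ range m, Cnt4_B R k ≤ R.om [] * (1 + R.om []) :=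
    mul_le_mul hCs hBs hBn hp
  have h4 : (∑ k ∈ range m, C k) * ∑ k ∈ range m, C k ≤ R.om [] * R.om [] :=
    mul_le_mul hCs hCs hCn hp
  rw [h2] at h1
  have h5 : R.om [] ^ 2 = R.om [] * R.om [] := sq _
  rw [h5]
  linarith

private theorem Cnt4_term (h h' : List V) (hM : R.M h = 1) :
    (if cd h h' = 0 then R.gd h * R.gd h' * (R.φ h (pos x0 h') * R.φ h' (pos x0 h)) else 0) ≤
      R.φ h' (pos x0 h) := by
  have h0 := R.φ_nonneg h' (pos x0 h)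
  split_ifs
  · have h1 : R.gd h * R.gd h' ≤ 1 :=
      mul_le_one₀ (R.gd_le_one h) (R.gd_nonneg h') (R.gd_le_one h')
    have h2 : R.φ h (pos x0 h') ≤ 1 := by rw [← hM]; exact R.φ_le _ _
    have h3 : 0 ≤ R.gd h * R.gd h' := mul_nonneg (R.gd_nonneg h) (R.gd_nonneg h')
    have h4 : R.φ h (pos x0 h') * R.φ h' (pos x0 h) ≤ 1 * R.φ h' (pos x0 h) :=
      mul_le_mul_of_nonneg_right h2 h0
    have h5 : 0 ≤ R.φ h (pos x0 h') * R.φ h' (pos x0 h) := mul_nonneg (R.φ_nonneg _ _) h0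
    calc R.gd h * R.gd h' * (R.φ h (pos x0 h') * R.φ h' (pos x0 h))
        ≤ 1 * (R.φ h (pos x0 h') * R.φ h' (pos x0 h)) := mul_le_mul_of_nonneg_right h1 h5
      _ ≤ R.φ h' (pos x0 h) := by linarith
  · exact h0

private theorem Cnt4_term' (h h' : List V) (hM : R.M h' = 1) :
    (if cd h h' = 0 then R.gd h * R.gd h' * (R.φ h (pos x0 h') * R.φ h' (pos x0 h)) else 0) ≤
      R.φ h (pos x0 h') := by
  have h0 := R.φ_nonneg h (pos x0 h')
  split_ifs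
  · have h1 : R.gd h * R.gd h' ≤ 1 :=
      mul_le_one₀ (R.gd_le_one h) (R.gd_nonneg h') (R.gd_le_one h')
    have h2 : R.φ h' (pos x0 h) ≤ 1 := by rw [← hM]; exact R.φ_le _ _
    have h4 : R.φ h (pos x0 h') * R.φ h' (pos x0 h) ≤ R.φ h (pos x0 h') * 1 :=
      mul_le_mul_of_nonneg_left h2 h0
    have h5 : 0 ≤ R.φ h (pos x0 h') * R.φ h' (pos x0 h) := mul_nonneg h0 (R.φ_nonneg _ _)
    calc R.gd h * R.gd h' * (R.φ h (pos x0 h') * R.φ h' (pos x0 h))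
        ≤ 1 * (R.φ h (pos x0 h') * R.φ h' (pos x0 h)) := mul_le_mul_of_nonneg_right h1 h5
      _ ≤ R.φ h (pos x0 h') := by linarith
  · exact h0

/-- Proof: `Z 0 0 ≤ φ [] x0 ^ 2 ≤ 1`.  `Z 0 (k+1) = ∑ h' ∈ Lk V (k+1), (if cd = 0 then ...) ≤ ∑ h' ∈ Lk V (k+1), φ h' x0 ≤ C k`
as `gd ≤ 1`, `φ [] _ ≤ M [] = 1`, `pos [] = x0`, `φ ≥ 0`; sum over `k` with `sum_c_le`.  Same for `Z (k+1) 0`. -/
theorem bd_le : R.Z 0 0 + ∑ k ∈ range m, R.Z 0 (k + 1) + ∑ k ∈ range m, R.Z (k + 1) 0 ≤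
    1 + 2 * R.om [] := by
  have h00 : R.Z 0 0 ≤ 1 := by
    unfold Z
    rw [sum_Lk_zero, sum_Lk_zero]
    refine (Cnt4_term R [] [] R.M_nil).trans ?_
    rw [← R.M_nil]
    exact R.φ_le _ _
  have h1 : ∀ k, R.Z 0 (k + 1) ≤ ∑ h ∈ Lk V k, R.c h := by
    intro k
    unfold Z
    rw [sum_Lk_zero]
    exact (Finset.sum_le_sum fun h' _ => Cnt4_term R [] h' R.M_nil).trans
      (R.sum_phi_succ_le k _)
  have h2 : ∀ k, R.Z (k + 1) 0 ≤ ∑ h ∈ Lk V k, R.c h := by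
    intro k
    unfold Z
    refine (Finset.sum_le_sum (g := fun h => R.φ h x0) fun h _ => ?_).trans
      (R.sum_phi_succ_le k x0)
    rw [sum_Lk_zero]
    exact Cnt4_term' R h [] R.M_nil
  have h3 := R.sum_c_le m
  have h4 := Finset.sum_le_sum (s := range m) fun k _ => h1 k
  have h5 := Finset.sum_le_sum (s := range m) fun k _ => h2 k
  linarith

end Rents

end Pool.Agent.H76.RS
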