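import Mathlib
import Pool.Agent.H76.RS.Cnt1
import Pool.Agent.H76.RS.Cnt2

/-!
# RS-04: insertions

Please replace the `sorry`s; keep the statement of `sum_Ins_le`.  `Cnt2` is another job; you can use its statement `sum_c_le`
although it still contains `sorry`.

Proof of `sum_Ins_le`.  `Ins 0 _ = Ins _ 0 = 0` (`cd [] _ = cd _ [] = 0`), and also `Ins 1 _ = Ins _ 1 = 0` (`cd [u] _ ≤ ...`: `cd` of
two one letter histories is `0` or `2`; in general `cd (u :: g) (u' :: g') = 1` iff `cd g g' = 2`, and then `g = z :: g2`,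
`g' = z :: g2'` with the same `z`).  So with `k = l + 2`, `k' = l' + 2`, using `sum_Lk_succ` twice on each side,

`Ins (l+2) (l'+2) = ∑ g ∈ Lk V l, ∑ g' ∈ Lk V l', ∑ z, ∑ z', ∑ u, ∑ u', (if cd (u::z::g) (u'::z'::g') = 1 then
   gd (u::z::g) * gd (u'::z'::g') * ∑ v, ∑ v', φ (v::u::z::g) v' * φ (v'::u'::z'::g') v else 0)`.

`cd (u::z::g) (u'::z'::g') = 1` forces `z = z'`.  For `z = z'` bound the term by
`gd (z::g') * ∑ v, ∑ v', φ (v::u::z::g) v' * M (v'::u'::z::g')` (`gd ≤ 1`, `gd_cons_le`, `φ_le`).  Now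
`∑ u, ∑ u', ∑ v, ∑ v', φ (v::u::z::g) v' * M (v'::u'::z::g') = ∑ u', ∑ v', M (v'::u'::z::g') * ∑ u, ∑ v, φ (v::u::z::g) v'
 ≤ ∑ u', ∑ v', M (v'::u'::z::g') * ∑ u, c (u::z::g)` (by `R.rel`, `w = v'`) `= M (z::g') * ∑ u, c (u::z::g)` (`M_sum` twice).
Hence `Ins (l+2) (l'+2) ≤ ∑ z, K l z * P l' z` with `K l z = ∑ g ∈ Lk V l, ∑ u, c (u::z::g)` and
`P l' z = ∑ g' ∈ Lk V l', gd (z::g') * M (z::g')`.  Sum over `l, l' < m` (all terms are `≥ 0`, so
`∑ k ∈ range m, ∑ k' ∈ range m, Ins k k' ≤ ∑ l ∈ range m, ∑ l' ∈ range m, Ins (l+2) (l'+2)`, extend the ranges to `m + 2` and use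
`sum_range_succ'` twice): the sum is `≤ ∑ z, (∑ l ∈ range m, K l z) * pi z ≤ S * ∑ z, ∑ l ∈ range m, K l z`, and
`∑ z, K l z = ∑ h ∈ Lk V (l + 2), c h` (`sum_Lk_succ` twice, `sum_comm`), `∑ l ∈ range m, ∑ h ∈ Lk V (l+2), c h ≤ om []`
(`sum_c_le (m + 2)`, the two first terms are `≥ 0`).
-/

namespace Pool.Agent.H76.RS

open Finset

namespace Rents

variable {V : Type*} [Fintype V] [DecidableEq V] {x0 : V} {m : ℕ} (R : Rents V x0 m)

theorem Ins_nonneg (k k' : ℕ) : 0 ≤ R.Ins k k' := by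
  unfold Ins
  refine Finset.sum_nonneg fun h _ => Finset.sum_nonneg fun h' _ => ?_
  split_ifs
  · refine mul_nonneg (mul_nonneg (R.gd_nonneg h) (R.gd_nonneg h')) ?_
    exact Finset.sum_nonneg fun z _ => Finset.sum_nonneg fun z' _ =>
      mul_nonneg (R.φ_nonneg _ _) (R.φ_nonneg _ _)
  · exact le_refl _

omit [Fintype V] in
private theorem cd_nil_right (h : List V) : cd h [] = 0 := by
  cases h <;> simp [cd]

omit [Fintype V] in
private theorem cd_nil_left (h : List V) : cd [] h = 0 := by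
  cases h <;> simp [cd]

private theorem Ins_zero_aux {k k' : ℕ} (h : ∀ h ∈ Lk V k, ∀ h' ∈ Lk V k', cd h h' ≠ 1) :
    R.Ins k k' = 0 := by
  unfold Ins
  refine Finset.sum_eq_zero fun g hg => Finset.sum_eq_zero fun g' hg' => ?_
  rw [if_neg (h g hg g' hg')]

theorem Ins_eq_zero_left (k' : ℕ) : R.Ins 0 k' = 0 ∧ R.Ins 1 k' = 0 := by
  constructor
  · refine R.Ins_zero_aux fun h hh h' _ => ?_
    rw [mem_Lk, List.length_eq_zero_iff] at hh
    rw [hh, cd_nil_left]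
    norm_num
  · refine R.Ins_zero_aux fun h hh h' _ => ?_
    rw [mem_Lk, List.length_eq_one_iff] at hh
    obtain ⟨u, rfl⟩ := hh
    cases h' with
    | nil => simp [cd]
    | cons u' g' =>
      simp only [cd, if_true]
      split_ifs <;> norm_num

theorem Ins_eq_zero_right (k : ℕ) : R.Ins k 0 = 0 ∧ R.Ins k 1 = 0 := by
  constructor
  · refine R.Ins_zero_aux fun h _ h' hh => ?_
    rw [mem_Lk, List.length_eq_zero_iff] at hh
    rw [hh, cd_nil_right]
    norm_num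
  · refine R.Ins_zero_aux fun h _ h' hh => ?_
    rw [mem_Lk, List.length_eq_one_iff] at hh
    obtain ⟨u, rfl⟩ := hh
    cases h with
    | nil => simp [cd]
    | cons u' g' =>
      simp only [cd, cd_nil_right, if_true]
      split_ifs <;> norm_num

private theorem cd_one_imp {u z u' z' : V} {g g' : List V}
    (h : cd (u :: z :: g) (u' :: z' :: g') = 1) : z = z' := by
  have h2 : cd (z :: g) (z' :: g') = 2 := by
    rw [cd] at h
    split_ifs at h <;> omega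
  have h3 := cd_le g g'
  rw [cd] at h2
  split_ifs at h2
  · assumption
  · omega

private theorem Ins_core (z : V) (g g' : List V) :
    ∑ u, ∑ u', ∑ v, ∑ v', R.φ (v :: u :: z :: g) v' * R.M (v' :: u' :: z :: g') ≤
      (∑ u, R.c (u :: z :: g)) * R.M (z :: g') := by
  rw [Finset.sum_mul]
  refine Finset.sum_le_sum fun u _ => ?_
  calc ∑ u', ∑ v, ∑ v', R.φ (v :: u :: z :: g) v' * R.M (v' :: u' :: z :: g')
      = ∑ u', ∑ v', (∑ v, R.φ (v :: u :: z :: g) v') * R.M (v' :: u' :: z :: g') := by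
        refine Finset.sum_congr rfl fun u' _ => ?_
        rw [Finset.sum_comm]
        refine Finset.sum_congr rfl fun v' _ => ?_
        rw [Finset.sum_mul]
    _ ≤ ∑ u', ∑ v', R.c (u :: z :: g) * R.M (v' :: u' :: z :: g') := by
        refine Finset.sum_le_sum fun u' _ => Finset.sum_le_sum fun v' _ => ?_
        exact mul_le_mul_of_nonneg_right (R.rel _ _) (R.M_nonneg _)
    _ = R.c (u :: z :: g) * R.M (z :: g') := by
        rw [← R.M_sum (z :: g'), Finset.mul_sum]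
        refine Finset.sum_congr rfl fun u' _ => ?_
        rw [← R.M_sum (u' :: z :: g'), Finset.mul_sum]

private theorem Ins_term (u z u' z' : V) (g g' : List V) :
    (if cd (u :: z :: g) (u' :: z' :: g') = 1 then
      R.gd (u :: z :: g) * R.gd (u' :: z' :: g') *
        ∑ v, ∑ v', R.φ (v :: u :: z :: g) v' * R.φ (v' :: u' :: z' :: g') v else 0) ≤
      if z = z' then R.gd (z :: g') *
        ∑ v, ∑ v', R.φ (v :: u :: z :: g) v' * R.M (v' :: u' :: z :: g') else 0 := by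
  have hpos : 0 ≤ ∑ v, ∑ v', R.φ (v :: u :: z :: g) v' * R.M (v' :: u' :: z :: g') :=
    Finset.sum_nonneg fun v _ => Finset.sum_nonneg fun v' _ =>
      mul_nonneg (R.φ_nonneg _ _) (R.M_nonneg _)
  by_cases h : cd (u :: z :: g) (u' :: z' :: g') = 1
  · obtain rfl := cd_one_imp h
    rw [if_pos h, if_pos rfl]
    apply mul_le_mul
    · calc R.gd (u :: z :: g) * R.gd (u' :: z :: g') ≤ 1 * R.gd (z :: g') :=
          mul_le_mul (R.gd_le_one _) (R.gd_cons_le _ _) (R.gd_nonneg _) zero_le_one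
        _ = R.gd (z :: g') := one_mul _
    · refine Finset.sum_le_sum fun v _ => Finset.sum_le_sum fun v' _ => ?_
      exact mul_le_mul_of_nonneg_left (R.φ_le _ _) (R.φ_nonneg _ _)
    · exact Finset.sum_nonneg fun v _ => Finset.sum_nonneg fun v' _ =>
        mul_nonneg (R.φ_nonneg _ _) (R.φ_nonneg _ _)
    · exact R.gd_nonneg _
  · rw [if_neg h]
    split_ifs
    · exact mul_nonneg (R.gd_nonneg _) hpos
    · exact le_refl _

theorem Ins_le (l l' : ℕ) : R.Ins (l + 2) (l' + 2) ≤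
    ∑ z, (∑ g ∈ Lk V l, ∑ u, R.c (u :: z :: g)) * ∑ g ∈ Lk V l', R.gd (z :: g) * R.M (z :: g) := by
  have h1 : R.Ins (l + 2) (l' + 2) = ∑ g ∈ Lk V l, ∑ z, ∑ u, ∑ g' ∈ Lk V l', ∑ z', ∑ u',
      (if cd (u :: z :: g) (u' :: z' :: g') = 1 then
        R.gd (u :: z :: g) * R.gd (u' :: z' :: g') *
          ∑ v, ∑ v', R.φ (v :: u :: z :: g) v' * R.φ (v' :: u' :: z' :: g') v else 0) := by
    unfold Ins
    rw [show l + 2 = l + 1 + 1 from rfl, show l' + 2 = l' + 1 + 1 from rfl, sum_Lk_succ,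
      sum_Lk_succ]
    refine Finset.sum_congr rfl fun g _ => Finset.sum_congr rfl fun z _ =>
      Finset.sum_congr rfl fun u _ => ?_
    rw [sum_Lk_succ, sum_Lk_succ]
  rw [h1]
  have h2 : ∀ g ∈ Lk V l, ∀ z : V, (∑ u, ∑ g' ∈ Lk V l', ∑ z', ∑ u',
      (if cd (u :: z :: g) (u' :: z' :: g') = 1 then
        R.gd (u :: z :: g) * R.gd (u' :: z' :: g') *
          ∑ v, ∑ v', R.φ (v :: u :: z :: g) v' * R.φ (v' :: u' :: z' :: g') v else 0)) ≤
      (∑ u, R.c (u :: z :: g)) * ∑ g' ∈ Lk V l', R.gd (z :: g') * R.M (z :: g') := by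
    intro g _ z
    rw [Finset.sum_comm, Finset.mul_sum]
    refine Finset.sum_le_sum fun g' _ => ?_
    calc (∑ u, ∑ z', ∑ u',
        (if cd (u :: z :: g) (u' :: z' :: g') = 1 then
          R.gd (u :: z :: g) * R.gd (u' :: z' :: g') *
            ∑ v, ∑ v', R.φ (v :: u :: z :: g) v' * R.φ (v' :: u' :: z' :: g') v else 0))
        ≤ ∑ u, ∑ z', ∑ u', (if z = z' then R.gd (z :: g') *
            ∑ v, ∑ v', R.φ (v :: u :: z :: g) v' * R.M (v' :: u' :: z :: g') else 0) :=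
          Finset.sum_le_sum fun u _ => Finset.sum_le_sum fun z' _ =>
            Finset.sum_le_sum fun u' _ => R.Ins_term u z u' z' g g'
      _ = ∑ u, ∑ u', R.gd (z :: g') *
            ∑ v, ∑ v', R.φ (v :: u :: z :: g) v' * R.M (v' :: u' :: z :: g') := by
          refine Finset.sum_congr rfl fun u _ => ?_
          rw [Finset.sum_comm]
          refine Finset.sum_congr rfl fun u' _ => ?_
          rw [Finset.sum_ite_eq, if_pos (Finset.mem_univ z)]
      _ = R.gd (z :: g') * ∑ u, ∑ u', ∑ v, ∑ v',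
            R.φ (v :: u :: z :: g) v' * R.M (v' :: u' :: z :: g') := by
          rw [Finset.mul_sum]
          refine Finset.sum_congr rfl fun u _ => ?_
          rw [Finset.mul_sum]
      _ ≤ R.gd (z :: g') * ((∑ u, R.c (u :: z :: g)) * R.M (z :: g')) :=
          mul_le_mul_of_nonneg_left (R.Ins_core z g g') (R.gd_nonneg _)
      _ = (∑ u, R.c (u :: z :: g)) * (R.gd (z :: g') * R.M (z :: g')) := by ring
  calc (∑ g ∈ Lk V l, ∑ z, ∑ u, ∑ g' ∈ Lk V l', ∑ z', ∑ u',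
      (if cd (u :: z :: g) (u' :: z' :: g') = 1 then
        R.gd (u :: z :: g) * R.gd (u' :: z' :: g') *
          ∑ v, ∑ v', R.φ (v :: u :: z :: g) v' * R.φ (v' :: u' :: z' :: g') v else 0))
      ≤ ∑ g ∈ Lk V l, ∑ z, (∑ u, R.c (u :: z :: g)) *
          ∑ g' ∈ Lk V l', R.gd (z :: g') * R.M (z :: g') :=
        Finset.sum_le_sum fun g hg => Finset.sum_le_sum fun z _ => h2 g hg z
    _ = ∑ z, (∑ g ∈ Lk V l, ∑ u, R.c (u :: z :: g)) *
          ∑ g ∈ Lk V l', R.gd (z :: g) * R.M (z :: g) := by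
        rw [Finset.sum_comm]
        refine Finset.sum_congr rfl fun z _ => ?_
        rw [Finset.sum_mul]

private theorem sum_shift {f : ℕ → ℝ} (hf : ∀ k, 0 ≤ f k) (h0 : f 0 = 0) (h1 : f 1 = 0) (K : ℕ) :
    ∑ k ∈ range K, f k ≤ ∑ k ∈ range K, f (k + 2) := by
  calc ∑ k ∈ range K, f k ≤ ∑ k ∈ range (K + 2), f k :=
        Finset.sum_le_sum_of_subset_of_nonneg (Finset.range_mono (by omega)) fun k _ _ => hf k
    _ = ∑ k ∈ range K, f (k + 2) := by
        rw [Finset.sum_range_succ', Finset.sum_range_succ', h0, h1, add_zero, add_zero]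

theorem sum_Ins_le (S : ℝ) (hS : ∀ z, R.pi z ≤ S) :
    ∑ k ∈ range m, ∑ k' ∈ range m, R.Ins k k' ≤ R.om [] * S := by
  have hK : ∀ l z, 0 ≤ ∑ g ∈ Lk V l, ∑ u, R.c (u :: z :: g) := fun l z =>
    Finset.sum_nonneg fun g _ => Finset.sum_nonneg fun u _ => R.c_nonneg' _
  have hpi : ∀ z, 0 ≤ R.pi z := fun z => Finset.sum_nonneg fun l _ =>
    Finset.sum_nonneg fun h _ => mul_nonneg (R.gd_nonneg _) (R.M_nonneg _)
  have hS0 : 0 ≤ S := (hpi x0).trans (hS x0)
  have h1 : ∑ k ∈ range m, ∑ k' ∈ range m, R.Ins k k' ≤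
      ∑ l ∈ range m, ∑ k' ∈ range m, R.Ins (l + 2) k' := by
    refine sum_shift (f := fun k => ∑ k' ∈ range m, R.Ins k k') ?_ ?_ ?_ m
    · exact fun k => Finset.sum_nonneg fun k' _ => R.Ins_nonneg k k'
    · exact Finset.sum_eq_zero fun k' _ => (R.Ins_eq_zero_left k').1
    · exact Finset.sum_eq_zero fun k' _ => (R.Ins_eq_zero_left k').2
  have h2 : ∑ l ∈ range m, ∑ k' ∈ range m, R.Ins (l + 2) k' ≤
      ∑ l ∈ range m, ∑ l' ∈ range m, R.Ins (l + 2) (l' + 2) := by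
    refine Finset.sum_le_sum fun l _ => ?_
    exact sum_shift (f := fun k' => R.Ins (l + 2) k') (fun k' => R.Ins_nonneg _ k')
      (R.Ins_eq_zero_right _).1 (R.Ins_eq_zero_right _).2 m
  have h3 : ∑ l ∈ range m, ∑ l' ∈ range m, R.Ins (l + 2) (l' + 2) ≤
      ∑ l ∈ range m, ∑ l' ∈ range m, ∑ z, (∑ g ∈ Lk V l, ∑ u, R.c (u :: z :: g)) *
        ∑ g ∈ Lk V l', R.gd (z :: g) * R.M (z :: g) :=
    Finset.sum_le_sum fun l _ => Finset.sum_le_sum fun l' _ => R.Ins_le l l'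
  have h4 : ∑ l ∈ range m, ∑ l' ∈ range m, ∑ z, (∑ g ∈ Lk V l, ∑ u, R.c (u :: z :: g)) *
        ∑ g ∈ Lk V l', R.gd (z :: g) * R.M (z :: g) =
      ∑ l ∈ range m, ∑ z, (∑ g ∈ Lk V l, ∑ u, R.c (u :: z :: g)) * R.pi z := by
    refine Finset.sum_congr rfl fun l _ => ?_
    rw [Finset.sum_comm]
    refine Finset.sum_congr rfl fun z _ => ?_
    rw [pi, Finset.mul_sum]
  have h5 : ∑ l ∈ range m, ∑ z, (∑ g ∈ Lk V l, ∑ u, R.c (u :: z :: g)) * R.pi z ≤
      ∑ l ∈ range m, ∑ z, (∑ g ∈ Lk V l, ∑ u, R.c (u :: z :: g)) * S :=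
    Finset.sum_le_sum fun l _ => Finset.sum_le_sum fun z _ =>
      mul_le_mul_of_nonneg_left (hS z) (hK l z)
  have h6 : ∑ l ∈ range m, ∑ z, (∑ g ∈ Lk V l, ∑ u, R.c (u :: z :: g)) * S =
      (∑ l ∈ range m, ∑ h ∈ Lk V (l + 2), R.c h) * S := by
    rw [Finset.sum_mul]
    refine Finset.sum_congr rfl fun l _ => ?_
    rw [← Finset.sum_mul, Finset.sum_comm, show l + 2 = l + 1 + 1 from rfl, sum_Lk_succ,
      sum_Lk_succ]
  have h7 : ∑ l ∈ range m, ∑ h ∈ Lk V (l + 2), R.c h ≤ R.om [] := by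
    have h8 := R.sum_c_le (m + 2)
    rw [Finset.sum_range_succ', Finset.sum_range_succ'] at h8
    have h9 : ∀ k, 0 ≤ ∑ h ∈ Lk V k, R.c h := fun k =>
      Finset.sum_nonneg fun h _ => R.c_nonneg' h
    have h10 := h9 0
    have h11 := h9 (0 + 1)
    linarith
  calc ∑ k ∈ range m, ∑ k' ∈ range m, R.Ins k k'
      ≤ (∑ l ∈ range m, ∑ h ∈ Lk V (l + 2), R.c h) * S := by
        rw [← h6]
        exact ((h1.trans h2).trans h3).trans (h4.le.trans h5)
    _ ≤ R.om [] * S := mul_le_mul_of_nonneg_right h7 hS0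

end Rents

end Pool.Agent.H76.RS
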