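import Mathlib
import Pool.Agent.H76.RS.Cnt1

/-!
# RS-05: coincidences

All statements are proved.
-/

namespace Pool.Agent.H76.RS

open Finset

namespace Rents

variable {V : Type*} [Fintype V] [DecidableEq V] {x0 : V} {m : ℕ} (R : Rents V x0 m)

/-- `Q (k+1) (k'+1)` as a sum over pairs of histories and one common new end point -/
private theorem Q_succ_aux (k k' : ℕ) : R.Q (k + 1) (k' + 1) = ∑ h ∈ Lk V k, ∑ h' ∈ Lk V k',
    ∑ z, R.gd (z :: h) * R.gd (z :: h') * (R.M (z :: h) * R.M (z :: h')) := by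
  rw [Q, sum_Lk_succ]
  refine Finset.sum_congr rfl fun h _ => ?_
  have h1 : ∀ z : V, (∑ h' ∈ Lk V (k' + 1), if pos x0 (z :: h) = pos x0 h' then
      R.gd (z :: h) * R.gd h' * (R.M (z :: h) * R.M h') else 0) =
      ∑ h' ∈ Lk V k', R.gd (z :: h) * R.gd (z :: h') * (R.M (z :: h) * R.M (z :: h')) := by
    intro z
    rw [sum_Lk_succ]
    refine Finset.sum_congr rfl fun h' _ => ?_
    change (∑ x, if z = x then
      R.gd (z :: h) * R.gd (x :: h') * (R.M (z :: h) * R.M (x :: h')) else 0) = _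
    rw [Finset.sum_ite_eq]
    simp
  simp only [h1]
  rw [Finset.sum_comm]

private theorem cd_cons_eq_two (z z' : V) (h h' : List V) :
    cd (z :: h) (z' :: h') = 2 ↔ cd h h' = 0 ∧ z = z' := by
  have := cd_le h h'
  simp only [cd]
  split_ifs with h1 h2
  · simp [h1, h2]
  · simp [h1, h2]
  · constructor
    · intro h3; omega
    · intro h3; exact absurd h3.1 h1

private theorem cd_cons_eq_one (z z' : V) (h h' : List V) :
    cd (z :: h) (z' :: h') = 1 ↔ cd h h' = 2 := by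
  have := cd_le h h'
  simp only [cd]
  split_ifs with h1 h2
  · simp [h1]
  · simp [h1]
  · omega

omit [Fintype V] in
private theorem cd_nil_right (h : List V) : cd h [] = 0 := by
  cases h <;> rfl

omit [Fintype V] in
private theorem cd_nil_left (h : List V) : cd [] h = 0 := by
  cases h <;> rfl

/-- `N (k+1) (k'+1)` as a sum over pairs of histories and one common new end point -/
private theorem N_succ_aux (k k' : ℕ) : R.N (k + 1) (k' + 1) = ∑ h ∈ Lk V k, ∑ h' ∈ Lk V k',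
    if cd h h' = 0 then
      ∑ z, R.gd (z :: h) * R.gd (z :: h') * (R.M (z :: h) * R.M (z :: h')) else 0 := by
  rw [N, sum_Lk_succ]
  refine Finset.sum_congr rfl fun h _ => ?_
  have h1 : ∀ z : V, (∑ h' ∈ Lk V (k' + 1), if cd (z :: h) h' = 2 then
      R.gd (z :: h) * R.gd h' * (R.M (z :: h) * R.M h') else 0) =
      ∑ h' ∈ Lk V k', if cd h h' = 0 then
        R.gd (z :: h) * R.gd (z :: h') * (R.M (z :: h) * R.M (z :: h')) else 0 := by
    intro z
    rw [sum_Lk_succ]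
    refine Finset.sum_congr rfl fun h' _ => ?_
    simp only [cd_cons_eq_two]
    by_cases h2 : cd h h' = 0
    · simp only [h2, true_and, if_true]
      rw [Finset.sum_ite_eq]
      simp
    · simp [h2]
  simp only [h1]
  rw [Finset.sum_comm]
  refine Finset.sum_congr rfl fun h' _ => ?_
  by_cases h2 : cd h h' = 0
  · simp [h2]
  · simp [h2]

private theorem pair_sum_le (h h' : List V) :
    ∑ z, ∑ z', R.gd (z :: h) * R.gd (z' :: h') * (R.M (z :: h) * R.M (z' :: h')) ≤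
      R.gd h * R.gd h' * (R.M h * R.M h') := by
  have h1 : ∀ g : List V, ∑ z, R.gd (z :: g) * R.M (z :: g) ≤ R.gd g * R.M g := by
    intro g
    rw [← R.M_sum g, Finset.mul_sum]
    exact Finset.sum_le_sum fun z _ => mul_le_mul_of_nonneg_right (R.gd_cons_le z g) (R.M_nonneg _)
  have h2 : ∑ z, ∑ z', R.gd (z :: h) * R.gd (z' :: h') * (R.M (z :: h) * R.M (z' :: h')) =
      (∑ z, R.gd (z :: h) * R.M (z :: h)) * (∑ z, R.gd (z :: h') * R.M (z :: h')) := by
    rw [Finset.sum_mul_sum]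
    refine Finset.sum_congr rfl fun z _ => Finset.sum_congr rfl fun z' _ => ?_
    ring
  have h3 : 0 ≤ ∑ z, R.gd (z :: h') * R.M (z :: h') :=
    Finset.sum_nonneg fun z _ => mul_nonneg (R.gd_nonneg _) (R.M_nonneg _)
  have h4 : 0 ≤ R.gd h * R.M h := mul_nonneg (R.gd_nonneg _) (R.M_nonneg _)
  rw [h2]
  calc (∑ z, R.gd (z :: h) * R.M (z :: h)) * (∑ z, R.gd (z :: h') * R.M (z :: h'))
      ≤ (R.gd h * R.M h) * (R.gd h' * R.M h') := mul_le_mul (h1 h) (h1 h') h3 h4
    _ = R.gd h * R.gd h' * (R.M h * R.M h') := by ring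

private theorem term_nonneg (h h' : List V) : 0 ≤ R.gd h * R.gd h' * (R.M h * R.M h') :=
  mul_nonneg (mul_nonneg (R.gd_nonneg _) (R.gd_nonneg _)) (mul_nonneg (R.M_nonneg _) (R.M_nonneg _))

private theorem diag_sum_le (h h' : List V) :
    ∑ z, R.gd (z :: h) * R.gd (z :: h') * (R.M (z :: h) * R.M (z :: h')) ≤
      R.gd h * R.gd h' * (R.M h * R.M h') := by
  refine le_trans (Finset.sum_le_sum fun z _ => ?_) (R.pair_sum_le h h')
  exact Finset.single_le_sum
    (f := fun z' => R.gd (z :: h) * R.gd (z' :: h') * (R.M (z :: h) * R.M (z' :: h')))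
    (fun z' _ => R.term_nonneg _ _) (Finset.mem_univ z)

/-- expand the square (`Finset.sum_mul_sum`, `sq`), `sum_Lk_succ` on both sides of `Q (l+1) (l'+1)`,
`pos x0 (z :: h) = z` by `rfl`, `Finset.sum_ite_eq`, `sum_comm` -/
theorem sum_pi_sq : ∑ z, R.pi z ^ 2 = ∑ l ∈ range m, ∑ l' ∈ range m, R.Q (l + 1) (l' + 1) := by
  have h1 : ∀ z, R.pi z ^ 2 = ∑ l ∈ range m, ∑ l' ∈ range m,
      (∑ h ∈ Lk V l, R.gd (z :: h) * R.M (z :: h)) * (∑ h ∈ Lk V l', R.gd (z :: h) * R.M (z :: h)) := by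
    intro z
    rw [sq, pi, Finset.sum_mul_sum]
  simp only [h1]
  rw [Finset.sum_comm]
  refine Finset.sum_congr rfl fun l _ => ?_
  rw [Finset.sum_comm]
  refine Finset.sum_congr rfl fun l' _ => ?_
  rw [R.Q_succ_aux l l']
  have h2 : ∀ z, (∑ h ∈ Lk V l, R.gd (z :: h) * R.M (z :: h)) *
      (∑ h ∈ Lk V l', R.gd (z :: h) * R.M (z :: h)) =
      ∑ h ∈ Lk V l, ∑ h' ∈ Lk V l',
        R.gd (z :: h) * R.gd (z :: h') * (R.M (z :: h) * R.M (z :: h')) := by
    intro z
    rw [Finset.sum_mul_sum]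
    refine Finset.sum_congr rfl fun h _ => Finset.sum_congr rfl fun h' _ => ?_
    ring
  simp only [h2]
  rw [Finset.sum_comm]
  refine Finset.sum_congr rfl fun h _ => ?_
  rw [Finset.sum_comm]

theorem N_nonneg (k k' : ℕ) : 0 ≤ R.N k k' := by
  refine Finset.sum_nonneg fun h _ => Finset.sum_nonneg fun h' _ => ?_
  split_ifs
  · exact R.term_nonneg h h'
  · exact le_refl _

/-- Every coincidence `(z::g, z::g')` has `cd g g' = 0` (then it is counted in `N (k+1) (k'+1)`), or `cd g g' = 2`, or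
`cd g g' = 1`.  Second case: `∑ z, gd (z::g) * gd (z::g') * (M (z::g) * M (z::g')) ≤ gd g * gd g' * (M g * M g')`
(`gd_cons_le` and `∑ z, a z * b z ≤ (∑ z, a z) * (∑ z, b z)` for nonnegative numbers, `M_sum`): the sum is `≤ N k k'`.
Third case: `cd g g' = 1` only if `k = l + 1`, `k' = l' + 1`, `g = u::g2`, `g' = u'::g2'` with `cd g2 g2' = 2`; as before
`∑ z, gd (z::g) * gd (z::g') * (M (z::g) * M (z::g')) ≤ gd g * gd g' * (M g * M g')`, and
`∑ u, ∑ u', gd (u::g2) * gd (u'::g2') * (M (u::g2) * M (u'::g2')) ≤ gd g2 * gd g2' * (M g2 * M g2')`: the sum is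
`≤ N l l' = N (k-1) (k'-1)`. -/
theorem Q_le (k k' : ℕ) : R.Q (k + 1) (k' + 1) ≤ R.N (k + 1) (k' + 1) + R.N k k' + R.N (k - 1) (k' - 1) := by
  have hthird : ∑ h ∈ Lk V k, ∑ h' ∈ Lk V k', (if cd h h' = 1 then
      R.gd h * R.gd h' * (R.M h * R.M h') else 0) ≤ R.N (k - 1) (k' - 1) := by
    rcases k with _ | l
    · rw [sum_Lk_zero]
      simp only [cd_nil_left]
      simpa using R.N_nonneg (0 - 1) (k' - 1)
    rcases k' with _ | l'
    · simp only [sum_Lk_zero, cd_nil_right]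
      simpa using R.N_nonneg (l + 1 - 1) (0 - 1)
    simp only [Nat.add_sub_cancel]
    rw [N, sum_Lk_succ]
    refine Finset.sum_le_sum fun g _ => ?_
    have h1 : ∀ u : V, (∑ h' ∈ Lk V (l' + 1), if cd (u :: g) h' = 1 then
        R.gd (u :: g) * R.gd h' * (R.M (u :: g) * R.M h') else 0) =
        ∑ g' ∈ Lk V l', if cd g g' = 2 then ∑ u', R.gd (u :: g) * R.gd (u' :: g') *
          (R.M (u :: g) * R.M (u' :: g')) else 0 := by
      intro u
      rw [sum_Lk_succ]
      refine Finset.sum_congr rfl fun g' _ => ?_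
      simp only [cd_cons_eq_one]
      by_cases h2 : cd g g' = 2
      · simp [h2]
      · simp [h2]
    simp only [h1]
    rw [Finset.sum_comm]
    refine Finset.sum_le_sum fun g' _ => ?_
    by_cases h2 : cd g g' = 2
    · simp only [h2, if_true]
      exact R.pair_sum_le g g'
    · simp [h2]
  rw [R.Q_succ_aux, R.N_succ_aux]
  refine le_trans ?_ (add_le_add_right hthird _)
  rw [N, ← Finset.sum_add_distrib, ← Finset.sum_add_distrib]
  refine Finset.sum_le_sum fun h _ => ?_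
  rw [← Finset.sum_add_distrib, ← Finset.sum_add_distrib]
  refine Finset.sum_le_sum fun h' _ => ?_
  have h1 := R.diag_sum_le h h'
  have h2 := cd_le h h'
  have h3 : cd h h' = 0 ∨ cd h h' = 1 ∨ cd h h' = 2 := by omega
  rcases h3 with h3 | h3 | h3
  · simp [h3]
  · simpa [h3] using h1
  · simpa [h3] using h1

/-- sum `Q_le` over `k, k' < m`: note `N 0 _ = N _ 0 = 0`, so
`∑ k ∈ range m, ∑ k' ∈ range m, N k k' ≤ ∑ k ∈ range m, ∑ k' ∈ range m, N (k+1) (k'+1)`, and the same for `N (k-1) (k'-1)`. -/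
theorem sum_pi_sq_le : ∑ z, R.pi z ^ 2 ≤ 3 * ∑ k ∈ range m, ∑ k' ∈ range m, R.N (k + 1) (k' + 1) := by
  have hN0 : ∀ k', R.N 0 k' = 0 := by
    intro k'
    rw [N, sum_Lk_zero]
    simp only [cd_nil_left]
    simp
  have hN0' : ∀ k, R.N k 0 = 0 := by
    intro k
    simp only [N, sum_Lk_zero, cd_nil_right]
    simp
  have hshift : ∀ (f : ℕ → ℝ), f 0 = 0 → (∀ k, 0 ≤ f k) →
      ∑ k ∈ range m, f k ≤ ∑ k ∈ range m, f (k + 1) := by
    intro f h0 hf
    have h1 := Finset.sum_range_succ' f m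
    have h2 := Finset.sum_range_succ f m
    have h3 := hf m
    linarith
  have hshift2 : ∀ (f : ℕ → ℝ), f 0 = 0 → (∀ k, 0 ≤ f k) →
      ∑ k ∈ range m, f (k - 1) ≤ ∑ k ∈ range m, f (k + 1) := by
    intro f h0 hf
    refine le_trans ?_ (hshift f h0 hf)
    rcases Nat.eq_zero_or_pos m with h1 | h1
    · simp [h1]
    obtain ⟨n, rfl⟩ : ∃ n, m = n + 1 := ⟨m - 1, by omega⟩
    rw [Finset.sum_range_succ' (fun k => f (k - 1)) n, Finset.sum_range_succ f n]
    simp only [Nat.add_sub_cancel]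
    have h3 := hf n
    simp [h0, h3]
  have hA : ∑ k ∈ range m, ∑ k' ∈ range m, R.N k k' ≤
      ∑ k ∈ range m, ∑ k' ∈ range m, R.N (k + 1) (k' + 1) := by
    refine le_trans (hshift (fun k => ∑ k' ∈ range m, R.N k k') (by simp [hN0])
      (fun k => Finset.sum_nonneg fun _ _ => R.N_nonneg _ _)) ?_
    exact Finset.sum_le_sum fun k _ => hshift (fun k' => R.N (k + 1) k') (hN0' _)
      (fun k' => R.N_nonneg _ _)
  have hB : ∑ k ∈ range m, ∑ k' ∈ range m, R.N (k - 1) (k' - 1) ≤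
      ∑ k ∈ range m, ∑ k' ∈ range m, R.N (k + 1) (k' + 1) := by
    refine le_trans (hshift2 (fun k => ∑ k' ∈ range m, R.N k (k' - 1)) (by simp [hN0])
      (fun k => Finset.sum_nonneg fun _ _ => R.N_nonneg _ _)) ?_
    exact Finset.sum_le_sum fun k _ => hshift2 (fun k' => R.N (k + 1) k') (hN0' _)
      (fun k' => R.N_nonneg _ _)
  have hC : ∑ k ∈ range m, ∑ k' ∈ range m, R.Q (k + 1) (k' + 1) ≤
      ∑ k ∈ range m, ∑ k' ∈ range m, R.N (k + 1) (k' + 1) + ∑ k ∈ range m, ∑ k' ∈ range m, R.N k k' +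
        ∑ k ∈ range m, ∑ k' ∈ range m, R.N (k - 1) (k' - 1) := by
    rw [← Finset.sum_add_distrib, ← Finset.sum_add_distrib]
    refine Finset.sum_le_sum fun k _ => ?_
    rw [← Finset.sum_add_distrib, ← Finset.sum_add_distrib]
    exact Finset.sum_le_sum fun k' _ => R.Q_le k k'
  rw [R.sum_pi_sq]
  linarith

end Rents

end Pool.Agent.H76.RS
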