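import Mathlib
import Pool.Agent.H76.RS.Cnt1
import Pool.Agent.H76.RS.Cnt2
import Pool.Agent.H76.RS.Cnt3
import Pool.Agent.H76.RS.Cnt4
import Pool.Agent.H76.RS.Cnt5
import Pool.Agent.H76.RS.Cnt6

/-!
# RS-06: assembly of the counting part

Please replace the `sorry`s; keep the statements.  `Cnt2` - `Cnt6` are other jobs (RS-01 .. RS-05); use their statements.

Proof of `pair_count`.  Suppose `p := om [] ≤ 1/16`.  Sum `step` over `k, k' < m`: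
`9/16 * ΣΣ N (k+1) (k'+1) + ΣΣ Z (k+1) (k'+1) ≤ ΣΣ Z k k' + ΣΣ Rt k k' + ΣΣ Ins k k'`, and
`ΣΣ Z k k' ≤ Z 0 0 + Σ Z 0 (k'+1) + Σ Z (k+1) 0 + ΣΣ Z (k+1) (k'+1)` (`Z ≥ 0`, `range m ⊆ range (m+1)`, `sum_range_succ'`).  So with
`S := √(∑ z, pi z ^ 2)` (`pi z ≤ S`), by `bd_le`, `sum_Rt_le`, `sum_Ins_le`, `sum_pi_sq_le`:
`3/16 * S^2 ≤ 9/16 * ΣΣ N ≤ 1 + 2 p + 2 (p (1 + p)) + p^2 + p S`.
`∑ z, pi z ≥ m (1 - 4p) ≥ 3/4 m` (`sum_gd_M_ge` at `k = l + 1`, `sum_Lk_succ`, `sum_comm`), and by Cauchy-Schwarz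
`(∑ z, pi z)^2 ≤ card V * S^2`; with `16 card V ≤ m^2` and `card V > 0` (there is `x0`) this gives `S^2 ≥ 9`, `S ≥ 3`.
With `p ≤ 1/16` the inequality says `3/16 S^2 ≤ 1 + 1/4 + 3/256 + S/16`, false for `S ≥ 3`.
-/

namespace Pool.Agent.H76.RS

open Finset

namespace Rents

variable {V : Type*} [Fintype V] [DecidableEq V] {x0 : V} {m : ℕ} (R : Rents V x0 m)

theorem Z_nonneg (k k' : ℕ) : 0 ≤ R.Z k k' := by
  unfold Z
  refine sum_nonneg fun h _ => sum_nonneg fun h' _ => ?_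
  split_ifs
  · exact mul_nonneg (mul_nonneg (R.gd_nonneg h) (R.gd_nonneg h'))
      (mul_nonneg (R.φ_nonneg _ _) (R.φ_nonneg _ _))
  · exact le_rfl

theorem sum_pi_ge (hp : R.om [] ≤ 1 / 4) : (m : ℝ) * (1 - 4 * R.om []) ≤ ∑ z, R.pi z := by
  have h1 : ∑ z, R.pi z = ∑ l ∈ range m, ∑ h ∈ Lk V (l + 1), R.gd h * R.M h := by
    unfold pi
    rw [sum_comm]
    refine sum_congr rfl fun l _ => ?_
    rw [sum_Lk_succ, sum_comm]
  rw [h1]
  calc (m : ℝ) * (1 - 4 * R.om []) = ∑ _l ∈ range m, (1 - 4 * R.om []) := by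
        rw [sum_const, card_range, nsmul_eq_mul]
    _ ≤ _ := sum_le_sum fun l _ => R.sum_gd_M_ge hp (l + 1)

private theorem Cnt7_Z_sum : ∑ k ∈ range m, ∑ k' ∈ range m, R.Z k k' ≤
    (R.Z 0 0 + ∑ k ∈ range m, R.Z 0 (k + 1) + ∑ k ∈ range m, R.Z (k + 1) 0) +
      ∑ k ∈ range m, ∑ k' ∈ range m, R.Z (k + 1) (k' + 1) := by
  have hsub : range m ⊆ range (m + 1) := range_subset_range.2 (Nat.le_succ m)
  have h1 : ∑ k ∈ range m, ∑ k' ∈ range m, R.Z k k' ≤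
      ∑ k ∈ range (m + 1), ∑ k' ∈ range (m + 1), R.Z k k' := by
    refine (sum_le_sum fun k _ => sum_le_sum_of_subset_of_nonneg hsub
      fun k' _ _ => R.Z_nonneg k k').trans ?_
    exact sum_le_sum_of_subset_of_nonneg hsub fun k _ _ => sum_nonneg fun k' _ => R.Z_nonneg k k'
  refine h1.trans (le_of_eq ?_)
  rw [sum_range_succ']
  have h2 : ∀ k, ∑ k' ∈ range (m + 1), R.Z k k' = ∑ k' ∈ range m, R.Z k (k' + 1) + R.Z k 0 :=
    fun k => sum_range_succ' _ _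
  simp only [h2, sum_add_distrib]
  ring

theorem pair_count (hm : 16 * Fintype.card V ≤ m ^ 2) : 1 / 16 < R.om [] := by
  by_contra hcon
  rw [not_lt] at hcon
  have hp0 : 0 ≤ R.om [] := R.om_nonneg []
  have hp4 : R.om [] ≤ 1 / 4 := hcon.trans (by norm_num)
  have hSS : 0 ≤ ∑ z, R.pi z ^ 2 := sum_nonneg fun z _ => sq_nonneg _
  obtain ⟨S, hS⟩ : ∃ S : ℝ, S = Real.sqrt (∑ z, R.pi z ^ 2) := ⟨_, rfl⟩
  have hS0 : 0 ≤ S := hS ▸ Real.sqrt_nonneg _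
  have hS2 : S ^ 2 = ∑ z, R.pi z ^ 2 := by rw [hS]; exact Real.sq_sqrt hSS
  have hpi : ∀ z, R.pi z ≤ S := by
    intro z
    rw [hS]
    exact (le_abs_self _).trans (Real.abs_le_sqrt
      (single_le_sum (f := fun z => R.pi z ^ 2) (fun z _ => sq_nonneg (R.pi z)) (mem_univ z)))
  have hs : ∑ k ∈ range m, ∑ k' ∈ range m,
      (9 / 16 * R.N (k + 1) (k' + 1) + R.Z (k + 1) (k' + 1)) ≤
      ∑ k ∈ range m, ∑ k' ∈ range m, (R.Z k k' + R.Rt k k' + R.Ins k k') :=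
    sum_le_sum fun k hk => sum_le_sum fun k' hk' =>
      R.step k k' (mem_range.1 hk) (mem_range.1 hk')
  simp only [sum_add_distrib, ← mul_sum] at hs
  have hZ := R.Cnt7_Z_sum
  have hRt := R.sum_Rt_le
  have hbd := R.bd_le
  have hIns := R.sum_Ins_le S hpi
  have hN := R.sum_pi_sq_le
  rw [← hS2] at hN
  have hpm := R.sum_pi_ge hp4
  -- Cauchy-Schwarz
  have hcs : (∑ z, R.pi z) ^ 2 ≤ (Fintype.card V : ℝ) * S ^ 2 := by
    rw [hS2]
    have := sq_sum_le_card_mul_sum_sq (s := (univ : Finset V)) (f := fun z => R.pi z)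
    simpa [card_univ] using this
  have hcard : 0 < Fintype.card V := Fintype.card_pos_iff.2 ⟨x0⟩
  have hcard' : (0 : ℝ) < Fintype.card V := by exact_mod_cast hcard
  have hm' : 16 * (Fintype.card V : ℝ) ≤ (m : ℝ) ^ 2 := by exact_mod_cast hm
  have hm0 : (0 : ℝ) ≤ m := Nat.cast_nonneg m
  have h3 : (3 / 4 : ℝ) * m ≤ ∑ z, R.pi z := by
    refine le_trans ?_ hpm
    nlinarith
  have h4 : (3 / 4 * (m : ℝ)) ^ 2 ≤ (Fintype.card V : ℝ) * S ^ 2 :=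
    (pow_le_pow_left₀ (by positivity) h3 2).trans hcs
  have h5 : 9 * (Fintype.card V : ℝ) ≤ (Fintype.card V : ℝ) * S ^ 2 := by nlinarith
  have h6 : 9 ≤ S ^ 2 := by
    by_contra hlt
    rw [not_le] at hlt
    have := mul_lt_mul_of_pos_left hlt hcard'
    linarith
  have h7 : 3 ≤ S := by nlinarith
  have h8 : R.om [] * S ≤ 1 / 16 * S := mul_le_mul_of_nonneg_right hcon hS0
  have h9 : R.om [] * (1 + R.om []) ≤ 1 / 16 * (1 + 1 / 16) := by nlinarith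
  have h10 : R.om [] ^ 2 ≤ 1 / 256 := by nlinarith
  nlinarith

end Rents

end Pool.Agent.H76.RS
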