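import Mathlib
import Pool.Agent.H94.Mey2.Mini

/-!
# RS: one-step duality for functions on `A × I`, and the value of a set of functions for a measure
-/

namespace Pool.Agent.H76.RS

open Finset Pool.Agent.H94.Mey2

/-- one-step duality, two index types -/
theorem duality2 {A I : Type*} [Fintype A] [Nonempty A] [Fintype I] {X : Set (A × I → ℝ)} (hX : Convex ℝ X)
    (R : A → I → Prop) (hX1 : ∀ τ ∈ X, ∀ x z, R x z → τ (x, z) ≤ 1)
    (b : I → ℝ) (hb : ∀ z, 0 ≤ b z) (hbR : ∀ z, b z ≠ 0 → ∃ x, R x z) (M : ℝ)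
    (hM : ∀ τ ∈ X, ∀ ρ : I → ℝ, (∀ z, ρ z ≤ 1) → (∀ x z, R x z → ρ z ≤ τ (x, z)) →
      ∑ z, b z * ρ z ≤ M) :
    ∃ β : A × I → ℝ, (∀ p, 0 ≤ β p) ∧ (∀ x z, β (x, z) ≠ 0 → R x z) ∧
      (∀ z, ∑ x, β (x, z) = b z) ∧ ∀ τ ∈ X, ∑ p, β p * τ p ≤ M := by
  classical
  set Y : Set (A × I → ℝ) := {β | (∀ p, 0 ≤ β p) ∧ (∀ x z, ¬ R x z → β (x, z) = 0) ∧
      ∀ z, ∑ x, β (x, z) = b z} with hY
  have hYv : Convex ℝ Y := by
    rintro β ⟨h1, h2, h3⟩ γ ⟨h4, h5, h6⟩ s t hs ht hst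
    refine ⟨fun p => ?_, fun x z hz => ?_, fun z => ?_⟩
    · simp only [Pi.add_apply, Pi.smul_apply, smul_eq_mul]
      have := h1 p
      have := h4 p
      positivity
    · simp [h2 x z hz, h5 x z hz]
    · simp only [Pi.add_apply, Pi.smul_apply, smul_eq_mul, Finset.sum_add_distrib,
        ← Finset.mul_sum, h3, h6]
      rw [← add_mul, hst, one_mul]
  have hYcl : IsClosed Y := by
    have h1 : IsClosed {β : A × I → ℝ | ∀ p, 0 ≤ β p} := by
      simp only [Set.ofPred_forall]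
      exact isClosed_iInter fun p => isClosed_le continuous_const (continuous_apply p)
    have h2 : IsClosed {β : A × I → ℝ | ∀ x z, ¬ R x z → β (x, z) = 0} := by
      simp only [Set.ofPred_forall]
      exact isClosed_iInter fun x => isClosed_iInter fun z => isClosed_iInter fun _ =>
        isClosed_eq (continuous_apply _) continuous_const
    have h3 : IsClosed {β : A × I → ℝ | ∀ z, ∑ x, β (x, z) = b z} := by
      simp only [Set.ofPred_forall]
      exact isClosed_iInter fun z => isClosed_eq (by fun_prop) continuous_const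
    exact h1.inter (h2.inter h3)
  have hYc : IsCompact Y := by
    have hbox : IsCompact (Set.pi Set.univ fun p : A × I => Set.Icc (0 : ℝ) (b p.2)) :=
      isCompact_univ_pi fun p => isCompact_Icc
    refine hbox.of_isClosed_subset hYcl ?_
    rintro β ⟨h1, h2, h3⟩
    refine Set.mem_univ_pi.mpr fun p => ⟨h1 p, ?_⟩
    rw [← h3 p.2]
    exact Finset.single_le_sum (f := fun x => β (x, p.2)) (fun x _ => h1 _) (Finset.mem_univ p.1)
  -- for every choice function there is an element of `Y`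
  have hmk : ∀ g : I → A, (∀ z, b z ≠ 0 → R (g z) z) →
      (fun p : A × I => if p.1 = g p.2 then b p.2 else 0) ∈ Y := by
    intro g hg
    refine ⟨fun p => ?_, fun x z hz => ?_, fun z => ?_⟩
    · dsimp only
      split_ifs
      · exact hb _
      · exact le_rfl
    · dsimp only
      split_ifs with h
      · by_contra h0
        exact hz (h ▸ hg z h0)
      · rfl
    · simp
  have hYne : Y.Nonempty := by
    choose! g hg using hbR
    exact ⟨_, hmk g hg⟩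
  by_contra hcon
  push Not at hcon
  have h1 : ∀ β ∈ Y, ∃ τ ∈ X, M < ∑ p, β p * τ p := by
    intro β hβ
    refine hcon β hβ.1 (fun x z h => ?_) hβ.2.2
    by_contra h0
    exact h (hβ.2.1 x z h0)
  obtain ⟨τ, hτ, h2⟩ := minimax_bilin hYc hYv hYne hX M h1
  -- the pointwise minimum
  have hg : ∀ z, ∃ x, ((∃ x', R x' z) → R x z) ∧ ∀ x', R x' z → τ (x, z) ≤ τ (x', z) := by
    intro z
    by_cases hz : ∃ x', R x' z
    · obtain ⟨x0, hx0⟩ := hz
      obtain ⟨x, hx, hmin⟩ := Finset.exists_min_image (Finset.univ.filter fun x' => R x' z)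
        (fun x' => τ (x', z)) ⟨x0, by simpa using hx0⟩
      refine ⟨x, fun _ => by simpa using hx, fun x' hx' => hmin x' (by simpa using hx')⟩
    · exact ⟨Classical.arbitrary A, fun h => absurd h hz, fun x' hx' => absurd ⟨x', hx'⟩ hz⟩
  choose g hg1 hg2 using hg
  have h3 := h2 _ (hmk g fun z hz => hg1 z (hbR z hz))
  have h4 := hM τ hτ (fun z => if ∃ x', R x' z then τ (g z, z) else 0) (by
    intro z
    split_ifs with h
    · exact hX1 τ hτ _ _ (hg1 z h)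
    · exact zero_le_one) (by
    intro x z hx
    have h : ∃ x', R x' z := ⟨x, hx⟩
    simp only [h, if_true]
    exact hg2 z x hx)
  refine absurd h4 (not_le.mpr (lt_of_lt_of_eq h3 ?_))
  rw [Fintype.sum_prod_type, Finset.sum_comm]
  refine Finset.sum_congr rfl fun z _ => ?_
  simp only [ite_mul, zero_mul, Finset.sum_ite_eq', Finset.mem_univ, if_true]
  by_cases hz : b z = 0
  · simp [hz]
  · have := hbR z hz
    simp [this]


section va

variable {I : Type*} [Fintype I]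

/-- value of a set of functions for a measure -/
noncomputable def va (X : Set (I → ℝ)) (a : I → ℝ) : ℝ :=
  sSup ((fun ρ : I → ℝ => ∑ σ, a σ * ρ σ) '' X)

/-- sets of functions `≤ 1` containing `0` -/
structure Ok (X : Set (I → ℝ)) : Prop where
  le_one : ∀ ρ ∈ X, ∀ σ, ρ σ ≤ 1
  zero_mem : (0 : I → ℝ) ∈ X

variable {X : Set (I → ℝ)} {a : I → ℝ}

omit [Fintype I] in
theorem Ok.nonempty (hX : Ok X) : X.Nonempty := ⟨0, hX.zero_mem⟩

theorem Ok.sum_le (hX : Ok X) (ha : ∀ σ, 0 ≤ a σ) {ρ : I → ℝ} (hρ : ρ ∈ X) :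
    ∑ σ, a σ * ρ σ ≤ ∑ σ, a σ :=
  Finset.sum_le_sum fun σ _ => mul_le_of_le_one_right (ha σ) (hX.le_one ρ hρ σ)

theorem Ok.bddAbove (hX : Ok X) (ha : ∀ σ, 0 ≤ a σ) :
    BddAbove ((fun ρ : I → ℝ => ∑ σ, a σ * ρ σ) '' X) := by
  refine ⟨∑ σ, a σ, ?_⟩
  rintro _ ⟨ρ, hρ, rfl⟩
  exact hX.sum_le ha hρ

theorem Ok.le_va (hX : Ok X) (ha : ∀ σ, 0 ≤ a σ) {ρ : I → ℝ} (hρ : ρ ∈ X) :
    ∑ σ, a σ * ρ σ ≤ va X a := le_csSup (hX.bddAbove ha) ⟨ρ, hρ, rfl⟩

theorem Ok.va_le (hX : Ok X) {M : ℝ} (h : ∀ ρ ∈ X, ∑ σ, a σ * ρ σ ≤ M) : va X a ≤ M := by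
  refine csSup_le (hX.nonempty.image _) ?_
  rintro _ ⟨ρ, hρ, rfl⟩
  exact h ρ hρ

theorem Ok.va_nonneg (hX : Ok X) (ha : ∀ σ, 0 ≤ a σ) : 0 ≤ va X a := by
  simpa using hX.le_va ha hX.zero_mem

theorem Ok.va_le_mass (hX : Ok X) (ha : ∀ σ, 0 ≤ a σ) : va X a ≤ ∑ σ, a σ :=
  hX.va_le fun _ hρ => hX.sum_le ha hρ

theorem Ok.va_zero (hX : Ok X) : va X (fun _ : I => (0 : ℝ)) = 0 := by
  refine le_antisymm (hX.va_le fun ρ _ => by simp) (hX.va_nonneg fun _ => le_rfl)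

theorem Ok.exists_lt (hX : Ok X) {t : ℝ} (h : t < va X a) : ∃ ρ ∈ X, t < ∑ σ, a σ * ρ σ := by
  obtain ⟨_, ⟨ρ, hρ, rfl⟩, h1⟩ := exists_lt_of_lt_csSup (hX.nonempty.image _) h
  exact ⟨ρ, hρ, h1⟩

theorem Ok.va_mono {Y : Set (I → ℝ)} (hX : Ok X) (hY : Ok Y) (ha : ∀ σ, 0 ≤ a σ) (h : X ⊆ Y) :
    va X a ≤ va Y a := hX.va_le fun _ hρ => hY.le_va ha (h hρ)

/-- subadditivity -/
theorem Ok.va_sum_le {K : Type*} (hX : Ok X) (s : Finset K) (a : K → I → ℝ)
    (ha : ∀ i σ, 0 ≤ a i σ) : va X (fun σ => ∑ i ∈ s, a i σ) ≤ ∑ i ∈ s, va X (a i) := by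
  refine hX.va_le fun ρ hρ => ?_
  simp_rw [Finset.sum_mul]
  rw [Finset.sum_comm]
  exact Finset.sum_le_sum fun i _ => hX.le_va (ha i) hρ

end va

end Pool.Agent.H76.RS
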