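import Mathlib
import Pool.Prelude.Def_F_8db9d53c
import Pool.Agent.H94.Mey2.Mini
import Pool.Agent.H94.Mey2.Prom
import Pool.Agent.H76.RS.Dual

/-!
# RS: promise sets with types

`I` is a finite set of types of the robber (sequences of slot end points).  In a slot the coordinate
`f : I → V` says where the type ends the slot, and `B x y` are the promises that a cop at `y` can
make after the slot when the robber is at `x`.
-/

namespace Pool.Agent.H76.RS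

open N6ef48c04 Finset Pool.Agent.H94.Mey2

variable {V I : Type*}

/-- promises of a cop at `y`, robber at `x`, with `t` rounds of the slot left -/
def Sl (G : SimpleGraph V) (f : I → V) (B : V → V → Set (I → ℝ)) : ℕ → V → V → Set (I → ℝ)
  | 0, x, y => {ρ | (∀ σ, ρ σ ≤ 1) ∧ (x ≠ y → ∃ ρ' ∈ B x y, ∀ σ, f σ = x → ρ σ ≤ ρ' σ)}
  | t + 1, x, y => {ρ | (∀ σ, ρ σ ≤ 1) ∧ ∀ x', Step G x x' →
      ∃ q ∈ convexHull ℝ {τ | ∃ y', Step G y y' ∧ τ ∈ Sl G f B t x' y'},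
        ∀ σ, Rch G t x' (f σ) → ρ σ ≤ q σ}

/-- promises when `j` slots of length `D` are left; `e j` is the coordinate of the slot after which
`j` slots are left -/
def Bs (G : SimpleGraph V) (e : ℕ → I → V) (D : ℕ) : ℕ → V → V → Set (I → ℝ)
  | 0, _, _ => {ρ | ∀ σ, ρ σ ≤ 0}
  | j + 1, x, y => Sl G (e j) (Bs G e D j) D x y

/-- promises of a free cop -/
def Fre (G : SimpleGraph V) (e : ℕ → I → V) (D j : ℕ) (x : V) : Set (I → ℝ) :=
  {ρ | ∀ y, ρ ∈ Bs G e D j x y}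

variable {G : SimpleGraph V} {f : I → V} {B : V → V → Set (I → ℝ)} {e : ℕ → I → V} {D : ℕ}

theorem Sl.le_one {t : ℕ} {x y : V} {ρ : I → ℝ} (h : ρ ∈ Sl G f B t x y) (σ : I) : ρ σ ≤ 1 := by
  cases t with
  | zero => exact h.1 σ
  | succ t => exact h.1 σ

/-- a function that is good for all end points is a promise from everywhere -/
theorem Sl.const_mem {g : I → ℝ} (hg1 : ∀ σ, g σ ≤ 1)
    (hg : ∀ z y, z ≠ y → ∃ ρ' ∈ B z y, ∀ σ, f σ = z → g σ ≤ ρ' σ) (t : ℕ) (x y : V) :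
    g ∈ Sl G f B t x y := by
  induction t generalizing x y with
  | zero => exact ⟨hg1, fun h => hg x y h⟩
  | succ t ih =>
    exact ⟨hg1, fun x' _ => ⟨g, subset_convexHull ℝ _ ⟨y, Or.inl rfl, ih x' y⟩, fun _ _ => le_rfl⟩⟩

theorem Sl.zero_mem (hB : ∀ x y, (0 : I → ℝ) ∈ B x y) (t : ℕ) (x y : V) :
    (0 : I → ℝ) ∈ Sl G f B t x y :=
  Sl.const_mem (fun _ => zero_le_one) (fun z y _ => ⟨0, hB z y, fun _ _ => le_rfl⟩) t x y

theorem Sl.ok (hB : ∀ x y, (0 : I → ℝ) ∈ B x y) (t : ℕ) (x y : V) : Ok (Sl G f B t x y) :=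
  ⟨fun _ h σ => Sl.le_one h σ, Sl.zero_mem hB t x y⟩

/-- go to `w` -/
theorem Sl.relocate {g : I → ℝ} (hg1 : ∀ σ, g σ ≤ 1) {w : V}
    (hg : ∀ z, z ≠ w → ∃ ρ' ∈ B z w, ∀ σ, f σ = z → g σ ≤ ρ' σ) (t : ℕ) (x y : V)
    (h : Rch G t y w) : g ∈ Sl G f B t x y := by
  induction t generalizing x y with
  | zero =>
    have h' : y = w := h
    subst h'
    exact ⟨hg1, fun h => hg x h⟩
  | succ t ih =>
    obtain ⟨y', hy', h1⟩ := h
    exact ⟨hg1, fun x' _ => ⟨g, subset_convexHull ℝ _ ⟨y', hy', ih x' y' h1⟩, fun _ _ => le_rfl⟩⟩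

theorem Bs.zero_mem (j : ℕ) (x y : V) : (0 : I → ℝ) ∈ Bs G e D j x y := by
  induction j generalizing x y with
  | zero => exact fun _ => le_rfl
  | succ j ih => exact Sl.zero_mem (fun x y => ih x y) D x y

theorem Bs.le_one {j : ℕ} {x y : V} {ρ : I → ℝ} (h : ρ ∈ Bs G e D j x y) (σ : I) : ρ σ ≤ 1 := by
  cases j with
  | zero => exact (h σ).trans zero_le_one
  | succ j => exact Sl.le_one (t := D) h σ

theorem Bs.ok (j : ℕ) (x y : V) : Ok (Bs G e D j x y) :=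
  ⟨fun _ h σ => Bs.le_one h σ, Bs.zero_mem j x y⟩

theorem Fre.ok (j : ℕ) (x : V) : Ok (Fre G e D j x) :=
  ⟨fun _ h σ => Bs.le_one (h x) σ, fun y => Bs.zero_mem j x y⟩

/-- relocation lemma for free cops -/
theorem Fre.relocate (hD : ∀ y w, Rch G D y w) {j : ℕ} {g : I → ℝ} (hg1 : ∀ σ, g σ ≤ 1) {w : V}
    (hg : ∀ z, z ≠ w → ∃ ρ' ∈ Bs G e D j z w, ∀ σ, e j σ = z → g σ ≤ ρ' σ) (x : V) :
    g ∈ Fre G e D (j + 1) x := fun y => Sl.relocate hg1 hg D x y (hD y w)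

variable [Fintype V] [Fintype I]

/-- the robber's optimal split of a measure -/
theorem Sl.exists_split (hB : ∀ x y, (0 : I → ℝ) ∈ B x y) (t : ℕ) (x y : V) (a : I → ℝ)
    (ha : ∀ σ, 0 ≤ a σ) (haR : ∀ σ, a σ ≠ 0 → Rch G (t + 1) x (f σ)) (M : ℝ)
    (hM : ∀ ρ ∈ Sl G f B (t + 1) x y, ∑ σ, a σ * ρ σ ≤ M) :
    ∃ (β : V × I → ℝ) (m : V → ℝ), (∀ p, 0 ≤ β p) ∧
      (∀ x' σ, β (x', σ) ≠ 0 → Step G x x' ∧ Rch G t x' (f σ)) ∧ (∀ σ, ∑ x', β (x', σ) = a σ) ∧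
      (∀ x', 0 ≤ m x') ∧ ∑ x', m x' ≤ M ∧
      ∀ x' y', Step G x x' → Step G y y' → ∀ ρ ∈ Sl G f B t x' y', ∑ σ, β (x', σ) * ρ σ ≤ m x' := by
  classical
  have : Nonempty V := ⟨x⟩
  set X : Set (V × I → ℝ) := {τ | ∀ x', Step G x x' →
    (fun σ => τ (x', σ)) ∈ convexHull ℝ {τ | ∃ y', Step G y y' ∧ τ ∈ Sl G f B t x' y'}} with hX
  have hXc : Convex ℝ X := by
    intro τ hτ σ hσ s t hs ht hst x' hx'
    exact (convex_convexHull ℝ _) (hτ x' hx') (hσ x' hx') hs ht hst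
  have hX1 : ∀ τ ∈ X, ∀ x' σ, (Step G x x' ∧ Rch G t x' (f σ)) → τ (x', σ) ≤ 1 := by
    rintro τ hτ x' σ ⟨h1, -⟩
    have hconv : Convex ℝ {τ : I → ℝ | τ σ ≤ 1} :=
      (convex_Iic (1 : ℝ)).linear_preimage (LinearMap.proj (R := ℝ) (φ := fun _ : I => ℝ) σ)
    refine convexHull_min ?_ hconv (hτ x' h1)
    rintro ρ ⟨y', -, hρ⟩
    exact Sl.le_one hρ σ
  obtain ⟨β, h1, h2, h3, h4⟩ := duality2 hXc (fun x' σ => Step G x x' ∧ Rch G t x' (f σ)) hX1 a ha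
    (fun σ hσ => haR σ hσ) M (by
      intro τ hτ ρ hρ1 hρ
      refine hM ρ ⟨hρ1, fun x' hx' => ⟨fun σ => τ (x', σ), hτ x' hx', fun σ hσ => hρ x' σ ⟨hx', hσ⟩⟩⟩)
  obtain ⟨m, h5, h6⟩ := exists_bounds (α := V)
    (fun x' => if Step G x x' then {τ | ∃ y', Step G y y' ∧ τ ∈ Sl G f B t x' y'} else {0})
    (by
      intro x'
      split_ifs
      · exact ⟨0, y, Or.inl rfl, Sl.zero_mem hB _ _ _⟩
      · exact ⟨0, rfl⟩)
    (fun x' ρ => ∑ σ, β (x', σ) * ρ σ) M (by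
      intro τ hτ
      have h7 := h4 (fun p => τ p.1 p.2) (by
        intro x' hx'
        have := hτ x'
        simp only [hx', if_true] at this
        exact subset_convexHull ℝ _ this)
      rwa [Fintype.sum_prod_type] at h7)
  refine ⟨β, m, h1, h2, h3, fun x' => ?_, h6, fun x' y' hx' hy' ρ hρ => ?_⟩
  · have := h5 x' 0 (by
      split_ifs
      · exact ⟨y, Or.inl rfl, Sl.zero_mem hB _ _ _⟩
      · exact rfl)
    simpa using this
  · refine h5 x' ρ ?_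
    simp only [hx', if_true]
    exact ⟨y', hy', hρ⟩

end Pool.Agent.H76.RS
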