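import Mathlib
import Pool.Agent.H76.RS.Sl

/-!
# RS: the key inequality with a linear baseline
-/

namespace Pool.Agent.H76.RS

open N6ef48c04 Finset Pool.Agent.H94.Mey2

variable {V I : Type*} [Fintype I] [DecidableEq V]

/-- restriction of a measure to the types that end the slot at `z` -/
def res (f : I → V) (z : V) (a : I → ℝ) : I → ℝ := fun σ => if f σ = z then a σ else 0

/-- the bracket: value of a cop at `z'` when the robber ends the slot at `z`, minus the baseline `g` -/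
noncomputable def br (G : SimpleGraph V) (f : I → V) (B : V → V → Set (I → ℝ)) (g : I → ℝ)
    (z z' : V) (a : I → ℝ) : ℝ :=
  va (Sl G f B 0 z z') (res f z a) - ∑ σ, res f z a σ * g σ

variable {G : SimpleGraph V} {f f' : I → V} {B B' : V → V → Set (I → ℝ)} {g g' : I → ℝ}

omit [Fintype I] in
theorem res_nonneg {a : I → ℝ} (ha : ∀ σ, 0 ≤ a σ) (z : V) (σ : I) : 0 ≤ res f z a σ := by
  unfold res
  split_ifs
  · exact ha σ
  · exact le_rfl

omit [Fintype I] in
theorem res_eq_self {a : I → ℝ} {z : V} (h : ∀ σ, a σ ≠ 0 → z = f σ) : res f z a = a := by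
  funext σ
  unfold res
  split_ifs with h1
  · rfl
  · by_contra h2
    exact h1 (h σ fun h3 => h2 h3.symm).symm

omit [Fintype I] in
theorem res_eq_zero {a : I → ℝ} {x z : V} (h : ∀ σ, a σ ≠ 0 → x = f σ) (hz : z ≠ x) :
    res f z a = fun _ => 0 := by
  funext σ
  unfold res
  split_ifs with h1
  · by_contra h2
    exact hz (h1.symm.trans (h σ h2).symm)
  · rfl

theorem br_nonneg (hB : ∀ x y, (0 : I → ℝ) ∈ B x y) (hg1 : ∀ σ, g σ ≤ 1)
    (hg : ∀ z y, z ≠ y → ∃ ρ' ∈ B z y, ∀ σ, f σ = z → g σ ≤ ρ' σ) {a : I → ℝ}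
    (ha : ∀ σ, 0 ≤ a σ) (z z' : V) : 0 ≤ br G f B g z z' a :=
  sub_nonneg.mpr ((Sl.ok hB 0 z z').le_va (res_nonneg ha z) (Sl.const_mem hg1 hg 0 z z'))

theorem br_zero (hB : ∀ x y, (0 : I → ℝ) ∈ B x y) {a : I → ℝ} {z z' : V}
    (h : res f z a = fun _ => 0) : br G f B g z z' a = 0 := by
  unfold br
  rw [h, (Sl.ok hB 0 z z').va_zero]
  simp

theorem br_sum_le (hB : ∀ x y, (0 : I → ℝ) ∈ B x y) {K : Type*} (s : Finset K) (a : K → I → ℝ)
    (ha : ∀ i σ, 0 ≤ a i σ) (z z' : V) :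
    br G f B g z z' (fun σ => ∑ i ∈ s, a i σ) ≤ ∑ i ∈ s, br G f B g z z' (a i) := by
  have h1 : res f z (fun σ => ∑ i ∈ s, a i σ) = fun σ => ∑ i ∈ s, res f z (a i) σ := by
    funext σ
    unfold res
    split_ifs
    · rfl
    · simp
  unfold br
  rw [h1, Finset.sum_sub_distrib]
  refine sub_le_sub ((Sl.ok hB 0 z z').va_sum_le s _ fun i σ => res_nonneg (ha i) z σ)
    (le_of_eq ?_)
  simp_rw [Finset.sum_mul]
  rw [Finset.sum_comm]

variable [Fintype V]

/-- **Key inequality with baseline.** -/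
theorem key_ineq2 (hB : ∀ x y, (0 : I → ℝ) ∈ B x y) (hB' : ∀ x y, (0 : I → ℝ) ∈ B' x y)
    (hg1 : ∀ σ, g σ ≤ 1) (hg : ∀ z y, z ≠ y → ∃ ρ' ∈ B z y, ∀ σ, f σ = z → g σ ≤ ρ' σ)
    (hg1' : ∀ σ, g' σ ≤ 1) (hg' : ∀ z y, z ≠ y → ∃ ρ' ∈ B' z y, ∀ σ, f' σ = z → g' σ ≤ ρ' σ)
    (t : ℕ) (x y : V) (a b : I → ℝ) (ha : ∀ σ, 0 ≤ a σ) (hb : ∀ σ, 0 ≤ b σ)
    (haR : ∀ σ, a σ ≠ 0 → Rch G t x (f σ)) (hbR : ∀ σ, b σ ≠ 0 → Rch G t y (f' σ)) (M M' : ℝ)
    (hM : ∀ ρ ∈ Sl G f B t x y, ∑ σ, a σ * ρ σ ≤ M)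
    (hM' : ∀ ρ ∈ Sl G f' B' t y x, ∑ σ, b σ * ρ σ ≤ M') :
    ∑ z, ∑ z', br G f B g z z' a * br G f' B' g' z' z b ≤
      (M - ∑ σ, a σ * g σ) * (M' - ∑ σ, b σ * g' σ) := by
  induction t generalizing x y a b M M' with
  | zero =>
    have h1 : ∑ z, ∑ z', br G f B g z z' a * br G f' B' g' z' z b =
        br G f B g x y a * br G f' B' g' y x b := by
      rw [Finset.sum_eq_single x, Finset.sum_eq_single y]
      · intro z' _ hz'
        rw [br_zero (z := z') hB' (res_eq_zero (fun σ hσ => hbR σ hσ) hz'), mul_zero]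
      · simp
      · intro z _ hz
        refine Finset.sum_eq_zero fun z' _ => ?_
        rw [br_zero (z := z) hB (res_eq_zero (fun σ hσ => haR σ hσ) hz), zero_mul]
      · simp
    rw [h1]
    have h2 : br G f B g x y a ≤ M - ∑ σ, a σ * g σ := by
      unfold br
      rw [res_eq_self (fun σ hσ => haR σ hσ)]
      exact sub_le_sub_right ((Sl.ok hB 0 x y).va_le hM) _
    have h3 : br G f' B' g' y x b ≤ M' - ∑ σ, b σ * g' σ := by
      unfold br
      rw [res_eq_self (fun σ hσ => hbR σ hσ)]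
      exact sub_le_sub_right ((Sl.ok hB' 0 y x).va_le hM') _
    exact mul_le_mul h2 h3 (br_nonneg hB' hg1' hg' hb y x) ((br_nonneg hB hg1 hg ha x y).trans h2)
  | succ t ih =>
    obtain ⟨β, m, hβ1, hβ2, hβ3, hm0, hmM, hβ4⟩ := Sl.exists_split hB t x y a ha haR M hM
    obtain ⟨γ, m', hγ1, hγ2, hγ3, hm0', hmM', hγ4⟩ := Sl.exists_split hB' t y x b hb hbR M' hM'
    have hp : ∀ x', 0 ≤ m x' - ∑ σ, β (x', σ) * g σ := by
      intro x'
      by_cases h : Step G x x'
      · exact sub_nonneg.mpr (hβ4 x' y h (Or.inl rfl) g (Sl.const_mem hg1 hg t x' y))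
      · have : ∀ σ, β (x', σ) = 0 := fun σ => by
          by_contra h0
          exact h (hβ2 x' σ h0).1
        simpa [this] using hm0 x'
    have hq : ∀ y', 0 ≤ m' y' - ∑ σ, γ (y', σ) * g' σ := by
      intro y'
      by_cases h : Step G y y'
      · exact sub_nonneg.mpr (hγ4 y' x h (Or.inl rfl) g' (Sl.const_mem hg1' hg' t y' x))
      · have : ∀ σ, γ (y', σ) = 0 := fun σ => by
          by_contra h0
          exact h (hγ2 y' σ h0).1
        simpa [this] using hm0' y'
    have ha' : a = fun σ => ∑ x', β (x', σ) := funext fun σ => (hβ3 σ).symm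
    have hb' : b = fun σ => ∑ y', γ (y', σ) := funext fun σ => (hγ3 σ).symm
    have hsa : ∑ σ, a σ * g σ = ∑ x', ∑ σ, β (x', σ) * g σ := by
      rw [ha', Finset.sum_comm]
      exact Finset.sum_congr rfl fun σ _ => by rw [Finset.sum_mul]
    have hsb : ∑ σ, b σ * g' σ = ∑ y', ∑ σ, γ (y', σ) * g' σ := by
      rw [hb', Finset.sum_comm]
      exact Finset.sum_congr rfl fun σ _ => by rw [Finset.sum_mul]
    -- product of brackets, pair by pair
    have hpair : ∀ x' y', ∑ z, ∑ z', br G f B g z z' (fun σ => β (x', σ)) *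
        br G f' B' g' z' z (fun σ => γ (y', σ)) ≤
        (m x' - ∑ σ, β (x', σ) * g σ) * (m' y' - ∑ σ, γ (y', σ) * g' σ) := by
      intro x' y'
      by_cases h : Step G x x' ∧ Step G y y'
      · exact ih x' y' _ _ (fun z => hβ1 _) (fun z => hγ1 _) (fun z hz => (hβ2 x' z hz).2)
          (fun z hz => (hγ2 y' z hz).2) _ _ (hβ4 x' y' h.1 h.2) (hγ4 y' x' h.2 h.1)
      · refine le_trans (le_of_eq ?_) (mul_nonneg (hp x') (hq y'))
        refine Finset.sum_eq_zero fun z _ => Finset.sum_eq_zero fun z' _ => ?_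
        by_cases h1 : Step G x x'
        · have h2 : ∀ σ, γ (y', σ) = 0 := fun σ => by
            by_contra h0
            exact h ⟨h1, (hγ2 y' σ h0).1⟩
          rw [br_zero (z := z') hB' (by funext σ; simp [res, h2]), mul_zero]
        · have h2 : ∀ σ, β (x', σ) = 0 := fun σ => by
            by_contra h0
            exact h1 (hβ2 x' σ h0).1
          rw [br_zero (z := z) hB (by funext σ; simp [res, h2]), zero_mul]
    calc ∑ z, ∑ z', br G f B g z z' a * br G f' B' g' z' z b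
        ≤ ∑ z, ∑ z', (∑ x', br G f B g z z' (fun σ => β (x', σ))) *
            ∑ y', br G f' B' g' z' z (fun σ => γ (y', σ)) := by
          refine Finset.sum_le_sum fun z _ => Finset.sum_le_sum fun z' _ => ?_
          refine mul_le_mul ?_ ?_ (br_nonneg hB' hg1' hg' hb z' z)
            (Finset.sum_nonneg fun x' _ => br_nonneg hB hg1 hg (fun σ => hβ1 _) z z')
          · conv_lhs => rw [ha']
            exact br_sum_le hB Finset.univ (fun x' σ => β (x', σ)) (fun x' σ => hβ1 _) z z'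
          · conv_lhs => rw [hb']
            exact br_sum_le hB' Finset.univ (fun y' σ => γ (y', σ)) (fun y' σ => hγ1 _) z' z
      _ = ∑ x', ∑ y', ∑ z, ∑ z', br G f B g z z' (fun σ => β (x', σ)) *
            br G f' B' g' z' z (fun σ => γ (y', σ)) := by
          simp_rw [Finset.sum_mul_sum]
          calc ∑ z, ∑ z', ∑ x', ∑ y', br G f B g z z' (fun σ => β (x', σ)) *
                br G f' B' g' z' z (fun σ => γ (y', σ))
              = ∑ z, ∑ x', ∑ z', ∑ y', br G f B g z z' (fun σ => β (x', σ)) *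
                br G f' B' g' z' z (fun σ => γ (y', σ)) :=
                Finset.sum_congr rfl fun z _ => Finset.sum_comm
            _ = ∑ x', ∑ z, ∑ z', ∑ y', br G f B g z z' (fun σ => β (x', σ)) *
                br G f' B' g' z' z (fun σ => γ (y', σ)) := Finset.sum_comm
            _ = ∑ x', ∑ z, ∑ y', ∑ z', br G f B g z z' (fun σ => β (x', σ)) *
                br G f' B' g' z' z (fun σ => γ (y', σ)) :=
                Finset.sum_congr rfl fun x' _ => Finset.sum_congr rfl fun z _ => Finset.sum_comm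
            _ = _ := Finset.sum_congr rfl fun x' _ => Finset.sum_comm
      _ ≤ ∑ x', ∑ y', (m x' - ∑ σ, β (x', σ) * g σ) * (m' y' - ∑ σ, γ (y', σ) * g' σ) :=
          Finset.sum_le_sum fun x' _ => Finset.sum_le_sum fun y' _ => hpair x' y'
      _ = (∑ x', (m x' - ∑ σ, β (x', σ) * g σ)) * ∑ y', (m' y' - ∑ σ, γ (y', σ) * g' σ) := by
          rw [Finset.sum_mul_sum]
      _ ≤ (M - ∑ σ, a σ * g σ) * (M' - ∑ σ, b σ * g' σ) := by
          have h1 : ∑ x', (m x' - ∑ σ, β (x', σ) * g σ) ≤ M - ∑ σ, a σ * g σ := by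
            rw [Finset.sum_sub_distrib, ← hsa]
            linarith
          have h2 : ∑ y', (m' y' - ∑ σ, γ (y', σ) * g' σ) ≤ M' - ∑ σ, b σ * g' σ := by
            rw [Finset.sum_sub_distrib, ← hsb]
            linarith
          exact mul_le_mul h1 h2 (Finset.sum_nonneg fun y' _ => hq y')
            ((Finset.sum_nonneg fun x' _ => hp x').trans h1)

end Pool.Agent.H76.RS
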