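import Mathlib
import Pool.Agent.H76.RS.Key
import Pool.Agent.H76.RS.Cnt1

/-!
# RS: rents.  The game provides a `Rents` structure
-/

namespace Pool.Agent.H76.RS

open N6ef48c04 Finset Pool.Agent.H94.Mey2

set_option linter.unusedSectionVars false

variable {V I : Type*} [Fintype V] [Fintype I] [DecidableEq V]

/-- the part of the measure with history `h` (most recent end point first), `m` slots in total -/
def mu (e : ℕ → I → V) (m : ℕ) (μ : I → ℝ) : List V → I → ℝ
  | [] => μ
  | z :: h => res (e (m - 1 - h.length)) z (mu e m μ h)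

section basic

variable {e : ℕ → I → V} {m : ℕ} {μ : I → ℝ}

omit [Fintype V] [Fintype I] in
theorem mu_nonneg (hμ : ∀ σ, 0 ≤ μ σ) (h : List V) (σ : I) : 0 ≤ mu e m μ h σ := by
  induction h with
  | nil => exact hμ σ
  | cons z h ih =>
    rw [mu, res]
    split_ifs
    · exact ih
    · exact le_rfl

theorem sum_res (f : I → V) (a g : I → ℝ) :
    ∑ z, ∑ σ, res f z a σ * g σ = ∑ σ, a σ * g σ := by
  rw [Finset.sum_comm]
  refine Finset.sum_congr rfl fun σ _ => ?_
  simp [res]

theorem sum_res_mass (f : I → V) (a : I → ℝ) : ∑ z, ∑ σ, res f z a σ = ∑ σ, a σ := by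
  rw [Finset.sum_comm]
  refine Finset.sum_congr rfl fun σ _ => ?_
  simp [res]

/-- gluing: values of the parts -/
theorem sum_glue (f : I → V) (a : I → ℝ) (r : V → I → ℝ) :
    ∑ σ, a σ * r (f σ) σ = ∑ z, ∑ σ, res f z a σ * r z σ := by
  rw [Finset.sum_comm]
  refine Finset.sum_congr rfl fun σ _ => ?_
  simp [res]

end basic

variable {G : SimpleGraph V} {e : ℕ → I → V} {D m : ℕ} {μ : I → ℝ}

/-- value of the free cop -/
noncomputable def omv (G : SimpleGraph V) (e : ℕ → I → V) (D m : ℕ) (μ : I → ℝ) (x0 : V)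
    (h : List V) : ℝ := va (Fre G e D (m - h.length) (pos x0 h)) (mu e m μ h)

/-- value of a cop at `y` -/
noncomputable def Wv (G : SimpleGraph V) (e : ℕ → I → V) (D m : ℕ) (μ : I → ℝ) (x0 : V)
    (h : List V) (y : V) : ℝ := va (Bs G e D (m - h.length) (pos x0 h) y) (mu e m μ h)

variable {x0 : V}

omit [DecidableEq V] in
theorem Fre_subset (j : ℕ) (x y : V) : Fre G e D j x ⊆ Bs G e D j x y := fun _ h => h y

theorem omv_nonneg (hμ : ∀ σ, 0 ≤ μ σ) (h : List V) : 0 ≤ omv G e D m μ x0 h :=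
  (Fre.ok _ _).va_nonneg (mu_nonneg hμ h)

theorem omv_le_Wv (hμ : ∀ σ, 0 ≤ μ σ) (h : List V) (y : V) :
    omv G e D m μ x0 h ≤ Wv G e D m μ x0 h y :=
  (Fre.ok _ _).va_mono (Bs.ok _ _ _) (mu_nonneg hμ h) (Fre_subset _ _ _)

theorem Wv_le_mass (hμ : ∀ σ, 0 ≤ μ σ) (h : List V) (y : V) :
    Wv G e D m μ x0 h y ≤ ∑ σ, mu e m μ h σ := (Bs.ok _ _ _).va_le_mass (mu_nonneg hμ h)

theorem sum_mass_cons (h : List V) : ∑ z, ∑ σ, mu e m μ (z :: h) σ = ∑ σ, mu e m μ h σ :=
  sum_res_mass _ _

/-- an approximately optimal choice below all the values, with error `δ` -/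
theorem exists_approx {K : Type*} [Fintype K] (X : K → Set (I → ℝ)) (hX : ∀ i, Ok (X i))
    (a : K → I → ℝ) {δ : ℝ} (hδ : 0 < δ) :
    ∃ r : K → I → ℝ, (∀ i, r i ∈ X i) ∧ ∀ i, va (X i) (a i) - δ ≤ ∑ σ, a i σ * r i σ := by
  have : ∀ i, ∃ ρ ∈ X i, va (X i) (a i) - δ < ∑ σ, a i σ * ρ σ := fun i =>
    (hX i).exists_lt (sub_lt_self _ hδ)
  choose r h1 h2 using this
  exact ⟨r, h1, fun i => (h2 i).le⟩

omit [Fintype V] [DecidableEq V] in
theorem va_Bs_zero (x y : V) {a : I → ℝ} (ha : ∀ σ, 0 ≤ a σ) : va (Bs G e D 0 x y) a = 0 := by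
  refine le_antisymm ((Bs.ok 0 x y).va_le fun ρ hρ => ?_) ((Bs.ok 0 x y).va_nonneg ha)
  exact Finset.sum_nonpos fun σ _ => mul_nonpos_of_nonneg_of_nonpos (ha σ) (hρ σ)

theorem Wv_eq_zero (hμ : ∀ σ, 0 ≤ μ σ) {h : List V} (hh : m ≤ h.length) (y : V) :
    Wv G e D m μ x0 h y = 0 := by
  unfold Wv
  rw [Nat.sub_eq_zero_of_le hh]
  exact va_Bs_zero _ _ (mu_nonneg hμ h)

/-- the glued function is a free promise -/
theorem glue_mem {j : ℕ} {r : V → I → ℝ} (hr : ∀ z, r z ∈ Fre G e D j z) (x : V) :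
    (fun σ => r (e j σ) σ) ∈ Fre G e D (j + 1) x := fun y =>
  Sl.const_mem (fun σ => (Fre.ok j _).le_one _ (hr _) σ)
    (fun z y' _ => ⟨r z, hr z y', fun σ hσ => by rw [hσ]⟩) D x y

/-- `c ≥ 0`: glue near-optimal free promises -/
theorem sum_omv_le (hμ : ∀ σ, 0 ≤ μ σ) (h : List V) :
    ∑ z, omv G e D m μ x0 (z :: h) ≤ omv G e D m μ x0 h := by
  by_cases hh : m ≤ h.length
  · refine le_trans (Finset.sum_nonpos fun z _ => ?_) (omv_nonneg hμ h)
    refine (omv_le_Wv hμ (z :: h) z).trans (le_of_eq ?_)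
    exact Wv_eq_zero hμ (by simp; omega) z
  · obtain ⟨j, hj⟩ : ∃ j, m - h.length = j + 1 := ⟨m - h.length - 1, by omega⟩
    have hj1 : ∀ z : V, m - (z :: h).length = j := fun z => by
      rw [List.length_cons]; omega
    have hj2 : m - 1 - h.length = j := by omega
    refine le_of_forall_pos_le_add fun ε hε => ?_
    have hδ : 0 < ε / (Fintype.card V + 1) := by positivity
    obtain ⟨r, h1, h2⟩ := exists_approx (fun z : V => Fre G e D j z) (fun z => Fre.ok j z)
      (fun z => mu e m μ (z :: h)) hδ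
    have h3 : ∑ z, (omv G e D m μ x0 (z :: h) - ε / (Fintype.card V + 1)) ≤
        omv G e D m μ x0 h := by
      calc ∑ z, (omv G e D m μ x0 (z :: h) - ε / (Fintype.card V + 1))
          ≤ ∑ z, ∑ σ, mu e m μ (z :: h) σ * r z σ := by
            refine Finset.sum_le_sum fun z _ => ?_
            have := h2 z
            unfold omv
            rw [hj1 z]
            exact this
        _ = ∑ σ, mu e m μ h σ * r (e j σ) σ := by
            rw [sum_glue (e j) (mu e m μ h) r]
            refine Finset.sum_congr rfl fun z _ => ?_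
            rw [mu, hj2]
        _ ≤ omv G e D m μ x0 h := by
            unfold omv
            rw [hj]
            exact (Fre.ok _ _).le_va (mu_nonneg hμ h) (glue_mem h1 _)
    rw [Finset.sum_sub_distrib, Finset.sum_const, Finset.card_univ, nsmul_eq_mul] at h3
    have h4 : (Fintype.card V : ℝ) * (ε / (Fintype.card V + 1)) ≤ ε := by
      rw [← mul_div_assoc, div_le_iff₀ (by positivity)]
      nlinarith
    linarith

/-- `(R)`: relocation to `w` -/
theorem sum_Wv_le (hμ : ∀ σ, 0 ≤ μ σ) (hD : ∀ y w, Rch G D y w) (h : List V) (w : V) :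
    ∑ z, Wv G e D m μ x0 (z :: h) w ≤ omv G e D m μ x0 h := by
  by_cases hh : m ≤ h.length
  · refine le_trans (le_of_eq (Finset.sum_eq_zero fun z _ => ?_)) (omv_nonneg hμ h)
    exact Wv_eq_zero hμ (by simp; omega) w
  · obtain ⟨j, hj⟩ : ∃ j, m - h.length = j + 1 := ⟨m - h.length - 1, by omega⟩
    have hj1 : ∀ z : V, m - (z :: h).length = j := fun z => by
      rw [List.length_cons]; omega
    have hj2 : m - 1 - h.length = j := by omega
    refine le_of_forall_pos_le_add fun ε hε => ?_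
    have hδ : 0 < ε / (Fintype.card V + 1) := by positivity
    obtain ⟨r, h1, h2⟩ := exists_approx (fun z : V => Bs G e D j z w) (fun z => Bs.ok j z w)
      (fun z => mu e m μ (z :: h)) hδ
    have hg : (fun σ => r (e j σ) σ) ∈ Fre G e D (j + 1) (pos x0 h) :=
      Fre.relocate hD (fun σ => Bs.le_one (h1 _) σ)
        (fun z _ => ⟨r z, h1 z, fun σ hσ => by rw [hσ]⟩) _
    have h3 : ∑ z, (Wv G e D m μ x0 (z :: h) w - ε / (Fintype.card V + 1)) ≤
        omv G e D m μ x0 h := by
      calc ∑ z, (Wv G e D m μ x0 (z :: h) w - ε / (Fintype.card V + 1))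
          ≤ ∑ z, ∑ σ, mu e m μ (z :: h) σ * r z σ := by
            refine Finset.sum_le_sum fun z _ => ?_
            have := h2 z
            unfold Wv
            rw [hj1 z]
            exact this
        _ = ∑ σ, mu e m μ h σ * r (e j σ) σ := by
            rw [sum_glue (e j) (mu e m μ h) r]
            refine Finset.sum_congr rfl fun z _ => ?_
            rw [mu, hj2]
        _ ≤ omv G e D m μ x0 h := by
            unfold omv
            rw [hj]
            exact (Fre.ok _ _).le_va (mu_nonneg hμ h) hg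
    rw [Finset.sum_sub_distrib, Finset.sum_const, Finset.card_univ, nsmul_eq_mul] at h3
    have h4 : (Fintype.card V : ℝ) * (ε / (Fintype.card V + 1)) ≤ ε := by
      rw [← mul_div_assoc, div_le_iff₀ (by positivity)]
      nlinarith
    linarith

/-- lower bound for a bracket by the rent -/
theorem br_ge (hμ : ∀ σ, 0 ≤ μ σ) {j : ℕ} (h : List V) (hj1 : m - (h.length + 1) = j)
    (hj2 : m - 1 - h.length = j) {r : V → I → ℝ} (hr : ∀ z, r z ∈ Fre G e D j z) (z z' : V) :
    (if z = z' then ∑ σ, mu e m μ (z :: h) σ else Wv G e D m μ x0 (z :: h) z') -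
      omv G e D m μ x0 (z :: h) ≤
    br G (e j) (Bs G e D j) (fun σ => r (e j σ) σ) z z' (mu e m μ h) := by
  have hres : res (e j) z (mu e m μ h) = mu e m μ (z :: h) := by
    rw [mu, hj2]
  have hok := Sl.ok (G := G) (f := e j) (B := Bs G e D j) (fun x y => Bs.zero_mem j x y) 0 z z'
  unfold br
  rw [hres]
  refine sub_le_sub ?_ ?_
  · split_ifs with hz
    · subst hz
      have h1 : (fun _ : I => (1 : ℝ)) ∈ Sl G (e j) (Bs G e D j) 0 z z :=
        ⟨fun _ => le_rfl, fun h => absurd rfl h⟩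
      simpa using hok.le_va (mu_nonneg hμ (z :: h)) h1
    · unfold Wv
      rw [List.length_cons, hj1]
      refine (Bs.ok _ _ _).va_mono hok (mu_nonneg hμ (z :: h)) ?_
      intro ρ hρ
      exact ⟨fun σ => Bs.le_one hρ σ, fun _ => ⟨ρ, hρ, fun _ _ => le_rfl⟩⟩
  · have h1 : ∑ σ, mu e m μ (z :: h) σ * r (e j σ) σ = ∑ σ, mu e m μ (z :: h) σ * r z σ := by
      refine Finset.sum_congr rfl fun σ _ => ?_
      rw [← hres, res]
      split_ifs with h2
      · rw [h2]
      · simp
    rw [h1]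
    unfold omv
    rw [List.length_cons, hj1]
    exact (Fre.ok _ _).le_va (mu_nonneg hμ (z :: h)) (hr z)

/-- `(K)` -/
theorem key_rent (hμ : ∀ σ, 0 ≤ μ σ) (hD : ∀ y w, Rch G D y w) (h h' : List V)
    (hh : h.length < m) (hh' : h'.length < m) :
    ∑ z, ∑ z', (if z = z' then
        (∑ σ, mu e m μ (z :: h) σ - omv G e D m μ x0 (z :: h)) *
          (∑ σ, mu e m μ (z :: h') σ - omv G e D m μ x0 (z :: h'))
      else (Wv G e D m μ x0 (z :: h) z' - omv G e D m μ x0 (z :: h)) *
          (Wv G e D m μ x0 (z' :: h') z - omv G e D m μ x0 (z' :: h'))) ≤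
    (Wv G e D m μ x0 h (pos x0 h') - ∑ z, omv G e D m μ x0 (z :: h)) *
      (Wv G e D m μ x0 h' (pos x0 h) - ∑ z, omv G e D m μ x0 (z :: h')) := by
  obtain ⟨j, hj⟩ : ∃ j, m - h.length = j + 1 := ⟨m - h.length - 1, by omega⟩
  have hj1 : m - (h.length + 1) = j := by omega
  have hj2 : m - 1 - h.length = j := by omega
  obtain ⟨j', hj'⟩ : ∃ j', m - h'.length = j' + 1 := ⟨m - h'.length - 1, by omega⟩
  have hj1' : m - (h'.length + 1) = j' := by omega
  have hj2' : m - 1 - h'.length = j' := by omega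
  set n : ℝ := (Fintype.card V : ℝ) with hn
  have hn0 : 0 ≤ n := Nat.cast_nonneg _
  set A : ℝ := Wv G e D m μ x0 h (pos x0 h') - ∑ z, omv G e D m μ x0 (z :: h) with hA
  set A' : ℝ := Wv G e D m μ x0 h' (pos x0 h) - ∑ z, omv G e D m μ x0 (z :: h') with hA'
  have hA0 : 0 ≤ A := sub_nonneg.mpr ((sum_omv_le hμ h).trans (omv_le_Wv hμ h _))
  have hA0' : 0 ≤ A' := sub_nonneg.mpr ((sum_omv_le hμ h').trans (omv_le_Wv hμ h' _))
  -- the approximate inequality
  have hmain : ∀ δ : ℝ, 0 < δ → ∑ z, ∑ z', (if z = z' then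
        (∑ σ, mu e m μ (z :: h) σ - omv G e D m μ x0 (z :: h)) *
          (∑ σ, mu e m μ (z :: h') σ - omv G e D m μ x0 (z :: h'))
      else (Wv G e D m μ x0 (z :: h) z' - omv G e D m μ x0 (z :: h)) *
          (Wv G e D m μ x0 (z' :: h') z - omv G e D m μ x0 (z' :: h'))) ≤
      (A + n * δ) * (A' + n * δ) := by
    intro δ hδ
    obtain ⟨r, h1, h2⟩ := exists_approx (fun z : V => Fre G e D j z) (fun z => Fre.ok j z)
      (fun z => mu e m μ (z :: h)) hδ
    obtain ⟨r', h1', h2'⟩ := exists_approx (fun z : V => Fre G e D j' z) (fun z => Fre.ok j' z)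
      (fun z => mu e m μ (z :: h')) hδ
    have hkey := key_ineq2 (G := G) (f := e j) (f' := e j') (B := Bs G e D j) (B' := Bs G e D j')
      (g := fun σ => r (e j σ) σ) (g' := fun σ => r' (e j' σ) σ)
      (fun x y => Bs.zero_mem j x y) (fun x y => Bs.zero_mem j' x y)
      (fun σ => (Fre.ok j _).le_one _ (h1 _) σ)
      (fun z y' _ => ⟨r z, h1 z y', fun σ hσ => by rw [hσ]⟩)
      (fun σ => (Fre.ok j' _).le_one _ (h1' _) σ)
      (fun z y' _ => ⟨r' z, h1' z y', fun σ hσ => by rw [hσ]⟩)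
      D (pos x0 h) (pos x0 h') (mu e m μ h) (mu e m μ h') (mu_nonneg hμ h) (mu_nonneg hμ h')
      (fun σ _ => hD _ _) (fun σ _ => hD _ _) (Wv G e D m μ x0 h (pos x0 h'))
      (Wv G e D m μ x0 h' (pos x0 h))
      (fun ρ hρ => by
        have h3 : ρ ∈ Bs G e D (m - h.length) (pos x0 h) (pos x0 h') := by rw [hj]; exact hρ
        exact (Bs.ok _ _ _).le_va (mu_nonneg hμ h) h3)
      (fun ρ hρ => by
        have h3 : ρ ∈ Bs G e D (m - h'.length) (pos x0 h') (pos x0 h) := by rw [hj']; exact hρ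
        exact (Bs.ok _ _ _).le_va (mu_nonneg hμ h') h3)
    refine le_trans ?_ (hkey.trans ?_)
    · refine Finset.sum_le_sum fun z _ => Finset.sum_le_sum fun z' _ => ?_
      have h3 := br_ge (x0 := x0) hμ h hj1 hj2 h1 z z'
      have h4 := br_ge (x0 := x0) hμ h' hj1' hj2' h1' z' z
      by_cases hz : z = z'
      · subst hz
        simp only [if_true] at h3 h4 ⊢
        refine mul_le_mul h3 h4 ?_ (le_trans ?_ h3)
        · exact sub_nonneg.mpr ((Fre.ok _ _).va_le_mass (mu_nonneg hμ (z :: h')))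
        · exact sub_nonneg.mpr ((Fre.ok _ _).va_le_mass (mu_nonneg hμ (z :: h)))
      · rw [if_neg hz] at h3 ⊢
        rw [if_neg (fun h5 => hz h5.symm)] at h4
        refine mul_le_mul h3 h4 (sub_nonneg.mpr (omv_le_Wv hμ (z' :: h') z))
          (le_trans (sub_nonneg.mpr (omv_le_Wv hμ (z :: h) z')) h3)
    · have h5 : ∑ z, omv G e D m μ x0 (z :: h) - n * δ ≤
          ∑ σ, mu e m μ h σ * r (e j σ) σ := by
        calc ∑ z, omv G e D m μ x0 (z :: h) - n * δ
            = ∑ z, (omv G e D m μ x0 (z :: h) - δ) := by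
              rw [Finset.sum_sub_distrib, Finset.sum_const, Finset.card_univ, nsmul_eq_mul]
          _ ≤ ∑ z, ∑ σ, mu e m μ (z :: h) σ * r z σ := by
              refine Finset.sum_le_sum fun z _ => ?_
              have := h2 z
              unfold omv
              rw [List.length_cons, hj1]
              exact this
          _ = ∑ σ, mu e m μ h σ * r (e j σ) σ := by
              rw [sum_glue (e j) (mu e m μ h) r]
              refine Finset.sum_congr rfl fun z _ => ?_
              rw [mu, hj2]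
      have h5' : ∑ z, omv G e D m μ x0 (z :: h') - n * δ ≤
          ∑ σ, mu e m μ h' σ * r' (e j' σ) σ := by
        calc ∑ z, omv G e D m μ x0 (z :: h') - n * δ
            = ∑ z, (omv G e D m μ x0 (z :: h') - δ) := by
              rw [Finset.sum_sub_distrib, Finset.sum_const, Finset.card_univ, nsmul_eq_mul]
          _ ≤ ∑ z, ∑ σ, mu e m μ (z :: h') σ * r' z σ := by
              refine Finset.sum_le_sum fun z _ => ?_
              have := h2' z
              unfold omv
              rw [List.length_cons, hj1']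
              exact this
          _ = ∑ σ, mu e m μ h' σ * r' (e j' σ) σ := by
              rw [sum_glue (e j') (mu e m μ h') r']
              refine Finset.sum_congr rfl fun z _ => ?_
              rw [mu, hj2']
      have h6' : 0 ≤ Wv G e D m μ x0 h' (pos x0 h) - ∑ σ, mu e m μ h' σ * r' (e j' σ) σ := by
        refine sub_nonneg.mpr ((Bs.ok _ _ _).le_va (mu_nonneg hμ h') ?_)
        rw [hj']
        exact glue_mem h1' _ _
      refine mul_le_mul (by linarith) (by linarith) h6' (by positivity)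
  -- the limit
  refine le_of_forall_pos_le_add fun ε hε => ?_
  set K : ℝ := n * (A + A' + n) + 1 with hK
  have hK0 : 0 < K := by positivity
  set δ : ℝ := min 1 (ε / K) with hδ
  have hδ0 : 0 < δ := lt_min one_pos (by positivity)
  have hδ1 : δ ≤ 1 := min_le_left _ _
  have hδ2 : δ * K ≤ ε := by
    have := min_le_right 1 (ε / K)
    calc δ * K ≤ ε / K * K := mul_le_mul_of_nonneg_right this hK0.le
      _ = ε := by field_simp
  refine (hmain δ hδ0).trans ?_
  have h7 : n * δ * (n * δ) ≤ n * n * δ := by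
    have : 0 ≤ n * n * δ := by positivity
    nlinarith
  nlinarith

/-- the game provides rents -/
noncomputable def rents (hμ : ∀ σ, 0 ≤ μ σ) (hμ1 : ∑ σ, μ σ = 1) (hD : ∀ y w, Rch G D y w) :
    Rents V x0 m where
  M h := ∑ σ, mu e m μ h σ
  om h := omv G e D m μ x0 h
  φ h y := Wv G e D m μ x0 h y - omv G e D m μ x0 h
  M_nonneg h := Finset.sum_nonneg fun σ _ => mu_nonneg hμ h σ
  M_nil := hμ1
  M_sum h := sum_mass_cons h
  om_nonneg h := omv_nonneg hμ h
  om_le h := (Fre.ok _ _).va_le_mass (mu_nonneg hμ h)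
  c_nonneg h := sum_omv_le hμ h
  φ_nonneg h y := sub_nonneg.mpr (omv_le_Wv hμ h y)
  φ_le h y := by
    have h1 := Wv_le_mass (G := G) (e := e) (D := D) (m := m) (x0 := x0) hμ h y
    have h2 := omv_nonneg (G := G) (e := e) (D := D) (m := m) (x0 := x0) hμ h
    linarith
  rel h w := by
    rw [Finset.sum_sub_distrib]
    exact sub_le_sub_right (sum_Wv_le hμ hD h w) _
  key h h' hh hh' := by
    refine (key_rent hμ hD h h' hh hh').trans (le_of_eq ?_)
    ring

end Pool.Agent.H76.RS
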