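import Mathlib
import Pool.Agent.H94.Mey2.Play
import Pool.Agent.H76.RS.Sl

/-!
# RS: the team strategy
-/

namespace Pool.Agent.H76.RS

open N6ef48c04 Finset Pool.Agent.H94.Mey2 Pool.Agent.Meyniel

variable {V I : Type*}

/-- every sequence of end points of the last `j` slots is the sequence of a type in `S` -/
def Rich (e : ℕ → I → V) : ℕ → Set I → Prop
  | 0, S => S.Nonempty
  | j + 1, S => ∀ z, Rich e j {σ | σ ∈ S ∧ e j σ = z}

variable {G : SimpleGraph V} {f : I → V} {B : V → V → Set (I → ℝ)} {e : ℕ → I → V} {D k : ℕ}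

variable [Fintype V] [Fintype I]

open Classical in
/-- one slot -/
theorem slot (S : Set I) (hB1 : ∀ x y, ∀ ρ ∈ B x y, ∀ σ, ρ σ ≤ 1)
    (hend : ∀ (x' : V) (y' : Fin k → V) (ρ : Fin k → I → ℝ), (∀ i, ρ i ∈ B x' (y' i)) →
      ∑ σ, (if σ ∈ S ∧ f σ = x' then (1 : ℝ) else 0) * ∏ i, (1 - ρ i σ) < 1 → RW G k y' x')
    (t : ℕ) (x : V) (y : Fin k → V) (ρ : Fin k → I → ℝ) (hρ : ∀ i, ρ i ∈ Sl G f B t x (y i))
    (hΦ : ∑ σ, (if σ ∈ S ∧ Rch G t x (f σ) then (1 : ℝ) else 0) * ∏ i, (1 - ρ i σ) < 1) :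
    RW G k y x := by
  induction t generalizing x y ρ with
  | zero =>
    by_cases hxy : ∃ i, y i = x
    · exact Or.inl hxy
    · push Not at hxy
      have h1 : ∀ i, ∃ ρ' ∈ B x (y i), ∀ σ, f σ = x → ρ i σ ≤ ρ' σ := fun i =>
        (hρ i).2 (hxy i).symm
      choose ρ' h2 h3 using h1
      refine hend x y ρ' h2 (lt_of_le_of_lt (Finset.sum_le_sum fun σ _ => ?_) hΦ)
      by_cases h : σ ∈ S ∧ f σ = x
      · have h' : σ ∈ S ∧ Rch G 0 x (f σ) := ⟨h.1, h.2.symm⟩
        rw [if_pos h, if_pos h', one_mul, one_mul]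
        exact Finset.prod_le_prod (fun i _ => by linarith [hB1 _ _ _ (h2 i) σ])
          fun i _ => by linarith [h3 i σ h.2]
      · rw [if_neg h, zero_mul]
        exact mul_nonneg (by split_ifs <;> norm_num)
          (Finset.prod_nonneg fun i _ => by linarith [Sl.le_one (hρ i) σ])
  | succ t ih =>
    refine RW.of_step fun x₁ hx₁ => ?_
    choose q hq1 hq2 using fun i => (hρ i).2 x₁ hx₁
    obtain ⟨τ, h1, h2⟩ := choose_lemma
      (c := fun σ : I => if σ ∈ S ∧ Rch G t x₁ (f σ) then (1 : ℝ) else 0)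
      (fun p => by split_ifs <;> norm_num) ρ q _ hq1
      (by
        rintro i τ ⟨y₁, -, h⟩ σ -
        exact Sl.le_one h σ)
      (by
        intro i σ hσ
        have hσ' : σ ∈ S ∧ Rch G t x₁ (f σ) := by
          by_contra h
          simp [h] at hσ
        exact hq2 i σ hσ'.2)
    choose y₁ hy1 hy2 using h1
    refine ⟨y₁, hy1, ih x₁ y₁ τ hy2 (lt_of_le_of_lt (h2.trans ?_) hΦ)⟩
    refine Finset.sum_le_sum fun σ _ => mul_le_mul_of_nonneg_right ?_
      (Finset.prod_nonneg fun i _ => by linarith [Sl.le_one (hρ i) σ])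
    by_cases h : σ ∈ S ∧ Rch G t x₁ (f σ)
    · have h' : σ ∈ S ∧ Rch G (t + 1) x (f σ) := ⟨h.1, x₁, hx₁, h.2⟩
      rw [if_pos h, if_pos h']
    · rw [if_neg h]
      split_ifs <;> norm_num

open Classical in
/-- **Team lemma.** -/
theorem play (j : ℕ) (S : Set I) (hS : Rich e j S) (x : V) (y : Fin k → V) (ρ : Fin k → I → ℝ)
    (hρ : ∀ i, ρ i ∈ Bs G e D j x (y i))
    (hΦ : ∑ σ, (if σ ∈ S then (1 : ℝ) else 0) * ∏ i, (1 - ρ i σ) < 1) : RW G k y x := by
  induction j generalizing S x y ρ with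
  | zero =>
    exfalso
    obtain ⟨σ, hσ⟩ := hS
    have h0 : ∀ σ', 0 ≤ ∏ i, (1 - ρ i σ') := fun σ' =>
      Finset.prod_nonneg fun i _ => by linarith [Bs.le_one (hρ i) σ']
    have h1 : (1 : ℝ) ≤ ∏ i, (1 - ρ i σ) := by
      calc (1 : ℝ) = ∏ i : Fin k, (1 : ℝ) := by simp
        _ ≤ ∏ i, (1 - ρ i σ) := Finset.prod_le_prod (fun _ _ => zero_le_one)
            fun i _ => by linarith [hρ i σ]
    have h2 : (if σ ∈ S then (1 : ℝ) else 0) * ∏ i, (1 - ρ i σ) ≤
        ∑ σ, (if σ ∈ S then (1 : ℝ) else 0) * ∏ i, (1 - ρ i σ) :=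
      Finset.single_le_sum (f := fun σ => (if σ ∈ S then (1 : ℝ) else 0) * ∏ i, (1 - ρ i σ))
        (fun σ' _ => mul_nonneg (by split_ifs <;> norm_num) (h0 σ')) (Finset.mem_univ σ)
    rw [if_pos hσ, one_mul] at h2
    linarith
  | succ j ih =>
    refine slot (f := e j) (B := Bs G e D j) S (fun x y ρ hρ σ => Bs.le_one hρ σ)
      (fun x' y' ρ' hρ' hΦ' => ih {σ | σ ∈ S ∧ e j σ = x'} (hS x') x' y' ρ' hρ' ?_) D x y ρ hρ
      (lt_of_le_of_lt (Finset.sum_le_sum fun σ _ => ?_) hΦ)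
    · refine lt_of_eq_of_lt (Finset.sum_congr rfl fun σ _ => ?_) hΦ'
      by_cases h : σ ∈ S ∧ e j σ = x'
      · rw [if_pos h, if_pos (show σ ∈ {σ | σ ∈ S ∧ e j σ = x'} from h)]
      · rw [if_neg h, if_neg (show ¬ σ ∈ {σ | σ ∈ S ∧ e j σ = x'} from h)]
    · refine mul_le_mul_of_nonneg_right ?_
        (Finset.prod_nonneg fun i _ => by linarith [Bs.le_one (hρ i) σ])
      by_cases h : σ ∈ S
      · rw [if_pos h]
        split_ifs <;> norm_num
      · rw [if_neg h, if_neg fun h' => h h'.1]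

/-- the coordinates of the types `Fin m → V` -/
def ev (m : ℕ) (v0 : V) (j : ℕ) (σ : Fin m → V) : V := if h : j < m then σ ⟨j, h⟩ else v0

omit [Fintype V] in
theorem rich_aux (m : ℕ) (v0 : V) (j : ℕ) (hj : j ≤ m) (τ : Fin m → V) :
    Rich (ev m v0) j {σ | ∀ i : Fin m, j ≤ i → σ i = τ i} := by
  classical
  induction j generalizing τ with
  | zero => exact ⟨τ, fun i _ => rfl⟩
  | succ j ih =>
    intro z
    have h1 := ih (by omega) (Function.update τ ⟨j, by omega⟩ z)
    refine cast ?_ h1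
    congr 1
    ext σ
    simp only [Set.mem_ofPred_eq]
    constructor
    · intro h
      refine ⟨fun i hi => ?_, ?_⟩
      · rw [h i (by omega), Function.update_of_ne]
        intro h2
        have := congrArg Fin.val h2
        simp at this
        omega
      · have h3 := h ⟨j, by omega⟩ le_rfl
        rw [Function.update_self] at h3
        simp only [ev, show j < m by omega, dif_pos]
        exact h3
    · rintro ⟨h2, h3⟩ i hi
      by_cases h4 : i = ⟨j, by omega⟩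
      · rw [h4, Function.update_self]
        simpa only [ev, show j < m by omega, dif_pos] using h3
      · rw [Function.update_of_ne h4]
        refine h2 i ?_
        have : (i : ℕ) ≠ j := fun h5 => h4 (Fin.ext h5)
        omega

omit [Fintype V] in
theorem rich_univ (m : ℕ) (v0 : V) : Rich (ev m v0) m Set.univ := by
  by_cases hV : Nonempty (Fin m → V)
  · obtain ⟨τ⟩ := hV
    have h1 := rich_aux m v0 m le_rfl τ
    refine cast ?_ h1
    congr 1
    ext σ
    simp only [Set.mem_ofPred_eq, Set.mem_univ, iff_true]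
    intro i hi
    exact absurd i.2 (by omega)
  · exact absurd ⟨fun _ => v0⟩ hV

/-- from a free promise that is more than `1/16` everywhere to a winning team -/
theorem copNumber_le_of_free [Nonempty V] (m N : ℕ)
    (h : ∀ x0 : V, ∃ τ ∈ convexHull ℝ (Fre G (ev m x0) D m x0), ∀ σ, 1 / 16 < τ σ)
    (hN : (Fintype.card V : ℝ) ^ m * (15 / 16) ^ N < 1) : copNumber G ≤ N := by
  classical
  refine copNumber_le_of_win (c := fun _ => Classical.arbitrary V) fun x => ?_
  refine Win.of_step (fun i => step_refl _) ?_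
  obtain ⟨τ, hτ, h1⟩ := h x
  obtain ⟨ρ, h2, h3⟩ := choose_lemma (ι := Fin m → V) (K := Fin N) (c := fun _ => (1 : ℝ))
    (fun _ => zero_le_one) (fun _ _ => 1 / 16) (fun _ => τ) (fun _ => Fre G (ev m x) D m x)
    (fun _ => hτ) (fun _ ρ hρ σ _ => (Fre.ok m x).le_one ρ hρ σ) (fun _ σ _ => (h1 σ).le)
  refine play m Set.univ (rich_univ m x) x _ ρ (fun i => h2 i _) (lt_of_le_of_lt ?_ hN)
  simp only [Set.mem_univ, if_true]
  calc ∑ σ, 1 * ∏ i, (1 - ρ i σ) ≤ ∑ σ : Fin m → V, 1 * ∏ i : Fin N, (1 - 1 / 16) := h3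
    _ = (Fintype.card V : ℝ) ^ m * (15 / 16) ^ N := by
        rw [show (1 : ℝ) - 1 / 16 = 15 / 16 by norm_num]
        simp only [Finset.prod_const, Finset.sum_const, Finset.card_univ, Fintype.card_fin,
          Fintype.card_fun, one_mul, nsmul_eq_mul, Nat.cast_pow]

end Pool.Agent.H76.RS
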