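import Mathlib
import Pool.Agent.H76.RS.Team
import Pool.Agent.H76.RS.Rent
import Pool.Agent.H76.RS.Cnt7

/-!
# RS: the cop number of a connected graph is at most `80 √n (1 + log n)`
-/

namespace Pool.Agent.H76.RS

open N6ef48c04 Finset Pool.Agent.H94.Mey2

variable {V : Type*} [Fintype V] {G : SimpleGraph V}

/-- one free cop: more than `1/16` against every type -/
theorem exists_free [Nonempty V] {D : ℕ} (hD : ∀ y w, Rch G D y w) (m : ℕ)
    (hm : 16 * Fintype.card V ≤ m ^ 2) (x0 : V) :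
    ∃ τ ∈ convexHull ℝ (Fre G (ev m x0) D m x0), ∀ σ, 1 / 16 < τ σ := by
  classical
  have hmain : ∀ μ ∈ stdSimplex ℝ (Fin m → V), ∃ τ ∈ convexHull ℝ (Fre G (ev m x0) D m x0),
      (1 / 16 : ℝ) < ∑ σ, μ σ * τ σ := by
    rintro μ ⟨hμ, hμ1⟩
    have h1 := (rents (G := G) (e := ev m x0) (D := D) (m := m) (x0 := x0) hμ hμ1 hD).pair_count hm
    have h2 : (1 / 16 : ℝ) < va (Fre G (ev m x0) D m x0) μ := h1
    obtain ⟨ρ, hρ, h3⟩ := (Fre.ok m x0).exists_lt h2
    exact ⟨ρ, subset_convexHull ℝ _ hρ, h3⟩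
  obtain ⟨τ, hτ, h⟩ := minimax_bilin (isCompact_stdSimplex ℝ (Fin m → V))
    (convex_stdSimplex ℝ (Fin m → V)) ⟨_, single_mem_stdSimplex ℝ (fun _ => x0)⟩
    (convex_convexHull ℝ _) (1 / 16) hmain
  refine ⟨τ, hτ, fun σ => ?_⟩
  have := h _ (single_mem_stdSimplex ℝ σ)
  simpa [Pi.single_apply] using this

theorem copNumber_le_sqrt_log (hG : G.Connected) :
    (copNumber G : ℝ) ≤ 80 * √(Fintype.card V) * (1 + Real.log (Fintype.card V)) := by
  classical
  have hne : Nonempty V := hG.nonempty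
  obtain ⟨D, hD⟩ := exists_diam hG
  set n : ℝ := (Fintype.card V : ℝ) with hn
  have hn1 : (1 : ℝ) ≤ n := by
    rw [hn]
    exact_mod_cast Fintype.card_pos
  have hn0 : 0 < n := by linarith
  have hl : 0 ≤ Real.log n := Real.log_nonneg hn1
  have hs1 : (1 : ℝ) ≤ √n := Real.one_le_sqrt.mpr hn1
  have hs2 : √n ^ 2 = n := Real.sq_sqrt hn0.le
  set m : ℕ := ⌈4 * √n⌉₊ with hm
  have hm1 : 4 * √n ≤ m := Nat.le_ceil _
  have hm2 : (m : ℝ) < 4 * √n + 1 := Nat.ceil_lt_add_one (by positivity)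
  have hmn : 16 * Fintype.card V ≤ m ^ 2 := by
    have : (16 : ℝ) * n ≤ (m : ℝ) ^ 2 := by nlinarith
    rw [hn] at this
    exact_mod_cast this
  set K : ℝ := 16 * m * Real.log n with hK
  have hK0 : 0 ≤ K := by positivity
  have hk : copNumber G ≤ ⌊K⌋₊ + 1 := by
    refine copNumber_le_of_free (G := G) (D := D) m _ (fun x0 => exists_free hD m hmn x0) ?_
    rw [← hn]
    have h1 : (15 / 16 : ℝ) ^ (⌊K⌋₊ + 1) ≤ Real.exp (-(1 / 16) * (⌊K⌋₊ + 1 : ℕ)) := by
      rw [mul_comm, Real.exp_nat_mul]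
      refine pow_le_pow_left₀ (by norm_num) ?_ _
      have := Real.add_one_le_exp (-(1 / 16 : ℝ))
      linarith
    have h2 : n ^ m = Real.exp (m * Real.log n) := by
      rw [Real.exp_nat_mul, Real.exp_log hn0]
    calc n ^ m * (15 / 16) ^ (⌊K⌋₊ + 1)
        ≤ Real.exp (m * Real.log n) * Real.exp (-(1 / 16) * (⌊K⌋₊ + 1 : ℕ)) := by
          rw [← h2]
          exact mul_le_mul_of_nonneg_left h1 (by positivity)
      _ = Real.exp (m * Real.log n - 1 / 16 * (⌊K⌋₊ + 1 : ℕ)) := by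
          rw [← Real.exp_add]; ring_nf
      _ < Real.exp 0 := by
          refine Real.exp_lt_exp.mpr ?_
          have h3 : K < (⌊K⌋₊ + 1 : ℕ) := by
            push_cast
            exact Nat.lt_floor_add_one K
          rw [hK] at h3
          rw [hK]
          linarith
      _ = 1 := Real.exp_zero
  have h1 : (copNumber G : ℝ) ≤ ⌊K⌋₊ + 1 := by exact_mod_cast hk
  have h2 : (⌊K⌋₊ : ℝ) ≤ K := Nat.floor_le hK0
  have h3 : (m : ℝ) ≤ 5 * √n := by linarith
  calc (copNumber G : ℝ) ≤ 16 * m * Real.log n + 1 := by linarith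
    _ ≤ 16 * (5 * √n) * Real.log n + 80 * √n := by
        gcongr
        linarith
    _ = 80 * √n * (1 + Real.log n) := by ring

end Pool.Agent.H76.RS
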